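import Mathlib

/-! # Rounding with halves rounded towards the centre -/

namespace Pool.Agent.W664.Fill

/-- Nearest integer, with halves rounded towards `n`. -/
noncomputable def rnd (n : ℕ) (z : ℝ) : ℕ := if z ≤ n then ⌊z + 1 / 2⌋₊ else ⌈z - 1 / 2⌉₊

lemma rnd_le (n : ℕ) {z : ℝ} (hz : 0 ≤ z) : (rnd n z : ℝ) ≤ z + 1 / 2 := by
  unfold rnd
  split_ifs with h
  · exact Nat.floor_le (by linarith)
  · push Not at h
    rcases le_or_gt z (1 / 2) with h1 | h1
    · have : ⌈z - 1 / 2⌉₊ = 0 := Nat.ceil_eq_zero.mpr (by linarith)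
      rw [this]; push_cast; linarith
    · have := Nat.ceil_lt_add_one (a := z - 1 / 2) (by linarith)
      linarith

lemma le_rnd (n : ℕ) {z : ℝ} : z - 1 / 2 ≤ (rnd n z : ℝ) := by
  unfold rnd
  split_ifs with h
  · have := Nat.lt_floor_add_one (z + 1 / 2)
    linarith
  · exact Nat.le_ceil _

lemma rnd_up {n : ℕ} {z : ℝ} (h : (rnd n z : ℝ) = z + 1 / 2) : z ≤ n := by
  by_contra hlt
  push Not at hlt
  unfold rnd at h
  rw [if_neg (not_le.mpr hlt)] at h
  have hn : (0 : ℝ) ≤ n := Nat.cast_nonneg n
  rcases le_or_gt z (1 / 2) with h1 | h1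
  · have : ⌈z - 1 / 2⌉₊ = 0 := Nat.ceil_eq_zero.mpr (by linarith)
    rw [this] at h; push_cast at h; linarith
  · have := Nat.ceil_lt_add_one (a := z - 1 / 2) (by linarith)
    linarith

lemma rnd_down {n : ℕ} {z : ℝ} (h : (rnd n z : ℝ) = z - 1 / 2) : (n : ℝ) < z := by
  by_contra hle
  push Not at hle
  unfold rnd at h
  rw [if_pos hle] at h
  have := Nat.lt_floor_add_one (z + 1 / 2)
  linarith

lemma rnd_adj (n : ℕ) {z w : ℝ} (h : |z - w| ≤ 1) (hz : 0 ≤ z) :
    rnd n z ≤ rnd n w + 1 := by
  by_contra hlt
  push Not at hlt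
  have h1 : rnd n w + 2 ≤ rnd n z := by omega
  have h2 : (rnd n w : ℝ) + 2 ≤ rnd n z := by exact_mod_cast h1
  have h3 := rnd_le n hz
  have h4 := le_rnd n (z := w)
  have h5 := (abs_le.mp h).2
  have e1 : (rnd n z : ℝ) = z + 1 / 2 := by linarith
  have e2 : (rnd n w : ℝ) = w - 1 / 2 := by linarith
  have f1 := rnd_up e1
  have f2 := rnd_down e2
  linarith

lemma rnd_compl (n : ℕ) {z : ℝ} (h0 : 0 ≤ z) (h1 : z ≤ 2 * n) :
    rnd n (2 * n - z) + rnd n z = 2 * n := by
  have key : ∀ w : ℝ, 0 ≤ w → w < n → rnd n (2 * n - w) + rnd n w = 2 * n := by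
    intro w hw0 hw1
    unfold rnd
    rw [if_pos hw1.le, if_neg (by push Not; linarith)]
    have e1 := Nat.floor_le (a := w + 1 / 2) (by linarith)
    have e2 := Nat.lt_floor_add_one (w + 1 / 2)
    set q := ⌊w + 1 / 2⌋₊ with hq
    have hqn : q ≤ 2 * n := by
      have : (q : ℝ) < n + 1 := by linarith
      have : q < n + 1 := by exact_mod_cast this
      omega
    have e3 : ⌈(2 * n - w) - 1 / 2⌉₊ = 2 * n - q := by
      rw [Nat.ceil_eq_iff]
      · have hc : ((2 * n - q : ℕ) : ℝ) = 2 * n - q := by
          rw [Nat.cast_sub hqn]; push_cast; ring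
        constructor
        · by_cases h2 : 2 * n - q = 0
          · have : q = 2 * n := by omega
            have hqr : (q : ℝ) = 2 * n := by exact_mod_cast this
            have hn1 : (1 : ℝ) ≤ n := by
              have : 0 < n := by
                by_contra h0
                have : n = 0 := by omega
                rw [this] at hw1; push_cast at hw1; linarith
              exact_mod_cast this
            exfalso; linarith
          · have h3 : ((2 * n - q - 1 : ℕ) : ℝ) = ((2 * n - q : ℕ) : ℝ) - 1 := by
              rw [Nat.cast_sub (by omega)]; simp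
            rw [h3, hc]; linarith
        · rw [hc]; linarith
      · intro h2
        have : q = 2 * n := by omega
        have hqr : (q : ℝ) = 2 * n := by exact_mod_cast this
        have hn1 : (1 : ℝ) ≤ n := by
          have : 0 < n := by
            by_contra h0
            have : n = 0 := by omega
            rw [this] at hw1; push_cast at hw1; linarith
          exact_mod_cast this
        linarith
    rw [e3]
    omega
  rcases lt_trichotomy z n with h | h | h
  · exact key z h0 h
  · rw [h]
    have e : (2 * (n : ℝ) - n) = n := by ring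
    rw [e]
    unfold rnd
    rw [if_pos (le_refl _)]
    have e2 : ⌊(n : ℝ) + 1 / 2⌋₊ = n := by
      rw [Nat.floor_eq_iff (by positivity)]
      constructor <;> linarith
    rw [e2]; omega
  · have := key (2 * n - z) (by linarith) (by linarith)
    have e : 2 * (n : ℝ) - (2 * n - z) = z := by ring
    rw [e] at this
    omega

end Pool.Agent.W664.Fill
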