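import Mathlib
import Pool.Agent.W664.Fill.Round

/-! # Derivatives of clamped functions -/

open Filter Topology

namespace Pool.Agent.W664.Fill

/-- The clamp of `y` to `[(k - 1/2) h, (k + 1/2) h]`. -/
noncomputable def clp (h : ℝ) (k : ℕ) (y : ℝ) : ℝ :=
  max (((k : ℝ) - 1 / 2) * h) (min y (((k : ℝ) + 1 / 2) * h))

lemma clp_lip (h : ℝ) (k : ℕ) (y z : ℝ) : |clp h k y - clp h k z| ≤ |y - z| := by
  unfold clp
  refine (abs_max_sub_max_le_max _ _ _ _).trans ?_
  apply max_le
  · rw [sub_self, abs_zero]; exact abs_nonneg _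
  · refine (abs_min_sub_min_le_max _ _ _ _).trans ?_
    apply max_le (le_refl _)
    rw [sub_self, abs_zero]; exact abs_nonneg _

lemma clp_ge (h : ℝ) (k : ℕ) (y : ℝ) : ((k : ℝ) - 1 / 2) * h ≤ clp h k y := le_max_left _ _

lemma clp_le {h : ℝ} (hh : 0 ≤ h) (k : ℕ) (y : ℝ) : clp h k y ≤ ((k : ℝ) + 1 / 2) * h := by
  unfold clp
  apply max_le
  · nlinarith
  · exact min_le_right _ _

lemma clp_low {h : ℝ} {k : ℕ} {y : ℝ} (hy : y ≤ ((k : ℝ) - 1 / 2) * h) :
    clp h k y = ((k : ℝ) - 1 / 2) * h := by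
  unfold clp
  exact max_eq_left ((min_le_left _ _).trans hy)

lemma clp_high {h : ℝ} (hh : 0 ≤ h) {k : ℕ} {y : ℝ} (hy : ((k : ℝ) + 1 / 2) * h ≤ y) :
    clp h k y = ((k : ℝ) + 1 / 2) * h := by
  unfold clp
  rw [min_eq_right hy]
  exact max_eq_right (by nlinarith)

lemma clp_mid {h : ℝ} {k : ℕ} {y : ℝ} (h1 : ((k : ℝ) - 1 / 2) * h ≤ y)
    (h2 : y ≤ ((k : ℝ) + 1 / 2) * h) : clp h k y = y := by
  unfold clp
  rw [min_eq_left h2, max_eq_right h1]

section

variable {E : Type} [NormedAddCommGroup E] [NormedSpace ℝ E]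

/-- At a point where all functions are differentiable, the differential of a clamp is the
differential of the function or zero, according to the rounding. -/
lemma fderiv_clp {h : ℝ} (hh : 0 < h) (n : ℕ) (f : E → ℝ) (x : E) (h0 : 0 ≤ f x)
    (h1 : f x ≤ 2 * n * h) (hf : DifferentiableAt ℝ f x)
    (hd : ∀ k ≤ 2 * n, DifferentiableAt ℝ (fun y => clp h k (f y)) x) (k : ℕ)
    (hk : k ≤ 2 * n) :
    fderiv ℝ (fun y => clp h k (f y)) x = if k = rnd n (f x / h) then fderiv ℝ f x else 0 := by
  set z : ℝ := f x / h with hz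
  have hz0 : 0 ≤ z := div_nonneg h0 hh.le
  have hfz : f x = z * h := by rw [hz]; field_simp
  have hz1 : z ≤ 2 * n := by
    rw [hz, div_le_iff₀ hh]; exact h1
  have hr1 := rnd_le n hz0
  have hr2 := le_rnd n (z := z)
  have hmax : ∀ j : ℕ, clp h j (f x) = ((j : ℝ) + 1 / 2) * h →
      fderiv ℝ (fun y => clp h j (f y)) x = 0 := by
    intro j hj
    apply IsLocalMax.fderiv_eq_zero
    apply Eventually.of_forall
    intro y
    simp only
    rw [hj]
    exact clp_le hh.le j _
  have hmin : ∀ j : ℕ, clp h j (f x) = ((j : ℝ) - 1 / 2) * h →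
      fderiv ℝ (fun y => clp h j (f y)) x = 0 := by
    intro j hj
    apply IsLocalMin.fderiv_eq_zero
    apply Eventually.of_forall
    intro y
    simp only
    rw [hj]
    exact clp_ge h j _
  have hcont : ContinuousAt f x := hf.continuousAt
  -- the tie lemma
  have htie : ∀ j : ℕ, j + 1 ≤ 2 * n → f x = ((j : ℝ) + 1 / 2) * h → fderiv ℝ f x = 0 := by
    intro j hj hfx
    have e1 : fderiv ℝ (fun y => clp h j (f y)) x = 0 :=
      hmax j (clp_high hh.le hfx.ge)
    have e2 : fderiv ℝ (fun y => clp h (j + 1) (f y)) x = 0 := by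
      apply hmin
      apply clp_low
      rw [hfx]; push_cast; nlinarith
    have hloc : f =ᶠ[𝓝 x] fun y => clp h j (f y) + clp h (j + 1) (f y)
        - ((j : ℝ) + 1 / 2) * h := by
      have hlo : ∀ᶠ y in 𝓝 x, ((j : ℝ) - 1 / 2) * h < f y :=
        hcont.eventually (lt_mem_nhds (by rw [hfx]; nlinarith))
      have hhi : ∀ᶠ y in 𝓝 x, f y < ((j : ℝ) + 3 / 2) * h :=
        hcont.eventually (gt_mem_nhds (by rw [hfx]; nlinarith))
      filter_upwards [hlo, hhi] with y hy1 hy2
      rcases le_total (f y) (((j : ℝ) + 1 / 2) * h) with hc | hc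
      · rw [clp_mid hy1.le hc, clp_low (k := j + 1) (by push_cast; linarith)]
        push_cast; ring
      · rw [clp_high hh.le hc, clp_mid (k := j + 1) (by push_cast; linarith)
          (by push_cast; linarith)]
        ring
    rw [hloc.fderiv_eq]
    have d1 := hd j (by omega)
    have d2 := hd (j + 1) hj
    have e3 : HasFDerivAt (fun y => clp h j (f y) + clp h (j + 1) (f y)
        - ((j : ℝ) + 1 / 2) * h) (fderiv ℝ (fun y => clp h j (f y)) x
          + fderiv ℝ (fun y => clp h (j + 1) (f y)) x) x :=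
      (d1.hasFDerivAt.add d2.hasFDerivAt).sub_const _
    rw [e3.fderiv, e1, e2, add_zero]
  split_ifs with hc
  · -- k = rounding
    have hkr : (k : ℝ) = rnd n z := by exact_mod_cast hc
    rw [← hkr] at hr1 hr2
    rcases eq_or_lt_of_le hr1 with ht | ht
    · -- z = k - 1/2
      have hfx : f x = ((k : ℝ) - 1 / 2) * h := by rw [hfz, ht]; ring
      rw [hmin k (clp_low hfx.le)]
      have hk1 : 1 ≤ k := by
        by_contra h2
        have : k = 0 := by omega
        rw [this] at ht; push_cast at ht; linarith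
      have := htie (k - 1) (by omega) (by
        rw [hfx, Nat.cast_sub hk1]; push_cast; ring)
      exact this.symm
    · rcases eq_or_lt_of_le hr2 with hs | hs
      · have hfx : f x = ((k : ℝ) + 1 / 2) * h := by rw [hfz, ← hs]; ring
        rw [hmax k (clp_high hh.le hfx.ge)]
        have hk1 : k + 1 ≤ 2 * n := by
          have h2 : (k : ℝ) < 2 * n := by linarith
          have : k < 2 * n := by exact_mod_cast h2
          omega
        exact (htie k hk1 hfx).symm
      · -- interior
        have hloc : (fun y => clp h k (f y)) =ᶠ[𝓝 x] f := by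
          have hlo : ∀ᶠ y in 𝓝 x, ((k : ℝ) - 1 / 2) * h < f y :=
            hcont.eventually (lt_mem_nhds (by rw [hfz]; nlinarith))
          have hhi : ∀ᶠ y in 𝓝 x, f y < ((k : ℝ) + 1 / 2) * h :=
            hcont.eventually (gt_mem_nhds (by rw [hfz]; nlinarith))
          filter_upwards [hlo, hhi] with y hy1 hy2
          exact clp_mid hy1.le hy2.le
        exact hloc.fderiv_eq
  · -- k is not the rounding
    rcases lt_or_gt_of_ne hc with hlt | hgt
    · apply hmax
      apply clp_high hh.le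
      have : (k : ℝ) + 1 ≤ rnd n z := by exact_mod_cast hlt
      rw [hfz]
      nlinarith
    · apply hmin
      apply clp_low
      have : (rnd n z : ℝ) + 1 ≤ k := by exact_mod_cast hgt
      rw [hfz]
      nlinarith

end

end Pool.Agent.W664.Fill
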