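import Mathlib
import Pool.Agent.H115R3.Filling.Loop

/-! # Loop integrals of piecewise affine functions -/

open Finset Real MeasureTheory Filter Topology Set

namespace Pool.Agent.W664.Fill

open Pool.Agent.H115R3.Filling

section

variable (α β : ℝ → ℝ)

/-- The elementary cross product. -/
def dd (s t : ℝ) : ℝ := α s * β t - α t * β s

/-- The polygonal sum over the first `q` cells. -/
noncomputable def pp (δ : ℝ) (q : ℕ) : ℝ :=
  ∑ j ∈ range q, dd α β ((j : ℝ) * δ) (((j + 1 : ℕ) : ℝ) * δ)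

/-- The primitive. -/
noncomputable def prim (δ : ℝ) (s : ℝ) : ℝ :=
  pp α β δ ⌊s / δ⌋₊ + dd α β ((⌊s / δ⌋₊ : ℝ) * δ) s

/-- `γ` is affine on the cells of length `δ`. -/
def PwAff (δ : ℝ) (γ : ℝ → ℝ) : Prop :=
  ∀ q : ℕ, ∃ A : ℝ, ∀ s ∈ Set.Icc ((q : ℝ) * δ) (((q + 1 : ℕ) : ℝ) * δ),
    γ s = γ ((q : ℝ) * δ) + A * (s - (q : ℝ) * δ)

variable {α β} {δ : ℝ}

lemma prim_cell (hδ : 0 < δ) (q : ℕ) {s : ℝ}
    (hs : s ∈ Set.Icc ((q : ℝ) * δ) (((q + 1 : ℕ) : ℝ) * δ)) :
    prim α β δ s = pp α β δ q + dd α β ((q : ℝ) * δ) s := by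
  rcases eq_or_lt_of_le hs.2 with h | h
  · have e : ⌊s / δ⌋₊ = q + 1 := by
      rw [h, mul_div_assoc, div_self hδ.ne', mul_one, Nat.floor_natCast]
    unfold prim
    rw [e, h]
    unfold pp dd
    rw [Finset.sum_range_succ]
    ring
  · have e : ⌊s / δ⌋₊ = q := by
      rw [Nat.floor_eq_iff (div_nonneg (le_trans (by positivity) hs.1) hδ.le)]
      refine ⟨?_, ?_⟩
      · rw [le_div_iff₀ hδ]; exact hs.1
      · rw [div_lt_iff₀ hδ]; push_cast at h; exact h
    unfold prim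
    rw [e]

lemma dd_cell (hα : PwAff δ α) (hβ : PwAff δ β) (hδ : 0 < δ) (q : ℕ) {s t : ℝ}
    (hs : s ∈ Set.Icc ((q : ℝ) * δ) (((q + 1 : ℕ) : ℝ) * δ))
    (ht : t ∈ Set.Icc ((q : ℝ) * δ) (((q + 1 : ℕ) : ℝ) * δ)) :
    dd α β s t = prim α β δ t - prim α β δ s := by
  rw [prim_cell hδ q hs, prim_cell hδ q ht]
  obtain ⟨A, hA⟩ := hα q
  obtain ⟨B, hB⟩ := hβ q
  unfold dd
  rw [hA s hs, hA t ht, hB s hs, hB t ht]
  ring

lemma dd_near (hα : PwAff δ α) (hβ : PwAff δ β) (hδ : 0 < δ) {Λ : ℝ} (hΛ : 0 ≤ Λ)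
    (hαl : ∀ s t, |α s - α t| ≤ Λ * |s - t|) (hβl : ∀ s t, |β s - β t| ≤ Λ * |s - t|)
    {s t : ℝ} (hs : 0 ≤ s) (hst : s ≤ t) (ht : t ≤ s + δ) :
    |dd α β s t - (prim α β δ t - prim α β δ s)| ≤ 2 * Λ ^ 2 * (t - s) ^ 2 := by
  set q := ⌊s / δ⌋₊ with hq
  have h1 : (q : ℝ) * δ ≤ s := by
    rw [← le_div_iff₀ hδ]; exact Nat.floor_le (div_nonneg hs hδ.le)
  have h2 : s < ((q + 1 : ℕ) : ℝ) * δ := by
    rw [← div_lt_iff₀ hδ]; push_cast; exact Nat.lt_floor_add_one _
  rcases le_total t (((q + 1 : ℕ) : ℝ) * δ) with h | h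
  · rw [dd_cell hα hβ hδ q ⟨h1, h2.le⟩ ⟨h1.trans hst, h⟩, sub_self, abs_zero]
    positivity
  · set b : ℝ := ((q + 1 : ℕ) : ℝ) * δ with hb
    have hb1 : b ∈ Set.Icc ((q : ℝ) * δ) (((q + 1 : ℕ) : ℝ) * δ) := by
      refine ⟨?_, le_refl _⟩
      rw [hb]; push_cast; nlinarith
    have hb2 : b ∈ Set.Icc (((q + 1 : ℕ) : ℝ) * δ) (((q + 1 + 1 : ℕ) : ℝ) * δ) := by
      refine ⟨le_refl _, ?_⟩
      rw [hb]; push_cast; nlinarith
    have ht2 : t ∈ Set.Icc (((q + 1 : ℕ) : ℝ) * δ) (((q + 1 + 1 : ℕ) : ℝ) * δ) := by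
      refine ⟨h, ?_⟩
      have : t ≤ b + δ := by linarith
      refine this.trans (le_of_eq ?_)
      rw [hb]; push_cast; ring
    have e1 := dd_cell hα hβ hδ q ⟨h1, h2.le⟩ hb1
    have e2 := dd_cell hα hβ hδ (q + 1) hb2 ht2
    have e3 : dd α β s t - (prim α β δ t - prim α β δ s)
        = -((α b - α s) * (β t - β b) - (α t - α b) * (β b - β s)) := by
      have : prim α β δ t - prim α β δ s = dd α β s b + dd α β b t := by
        rw [e1, e2]; ring
      rw [this]
      unfold dd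
      ring
    rw [e3, abs_neg]
    refine (abs_sub _ _).trans ?_
    rw [abs_mul, abs_mul]
    have f1 := hαl b s
    have f2 := hβl t b
    have f3 := hαl t b
    have f4 := hβl b s
    have g1 : |b - s| ≤ t - s := by rw [abs_of_nonneg (by linarith)]; linarith
    have g2 : |t - b| ≤ t - s := by rw [abs_of_nonneg (by linarith)]; linarith
    have k1 : Λ * |b - s| ≤ Λ * (t - s) := mul_le_mul_of_nonneg_left g1 hΛ
    have k2 : Λ * |t - b| ≤ Λ * (t - s) := mul_le_mul_of_nonneg_left g2 hΛ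
    have hts : 0 ≤ t - s := by linarith
    have m1 := mul_le_mul (f1.trans k1) (f2.trans k2) (abs_nonneg _) (by positivity)
    have m2 := mul_le_mul (f3.trans k2) (f4.trans k1) (abs_nonneg _) (by positivity)
    nlinarith

end

lemma fin_telescope2 {m : ℕ} (brk : Fin (m + 1) → ℝ) (γ : ℝ → ℝ) {n : ℕ} (hn : 0 < n) :
    ∑ k : Fin m, ∑ i ∈ range n, (γ (arc brk k (((i + 1 : ℕ) : ℝ) / n))
      - γ (arc brk k ((i : ℝ) / n))) = γ (brk (Fin.last m)) - γ (brk 0) := by
  have hnr : (n : ℝ) ≠ 0 := by exact_mod_cast hn.ne'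
  have h1 : ∀ k : Fin m, ∑ i ∈ range n, (γ (arc brk k (((i + 1 : ℕ) : ℝ) / n))
      - γ (arc brk k ((i : ℝ) / n))) = γ (brk k.succ) - γ (brk k.castSucc) := by
    intro k
    rw [Finset.sum_range_sub (fun i : ℕ => γ (arc brk k ((i : ℝ) / n)))]
    rw [div_self hnr, arc_one]
    simp [arc_zero]
  rw [Finset.sum_congr rfl (fun k _ => h1 k), fin_telescope (fun k => γ (brk k))]

/-- The loop sums of piecewise affine functions converge to the polygonal sum. -/
theorem tendsto_loopSum {m : ℕ} (brk : Fin (m + 1) → ℝ) (hmono : StrictMono brk)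
    (h0 : brk 0 = 0) {δ : ℝ} (hδ : 0 < δ) (Q : ℕ) (hQ : brk (Fin.last m) = Q * δ)
    {α β : ℝ → ℝ} (hα : PwAff δ α) (hβ : PwAff δ β) {Λ : ℝ} (hΛ : 0 ≤ Λ)
    (hαl : ∀ s t, |α s - α t| ≤ Λ * |s - t|) (hβl : ∀ s t, |β s - β t| ≤ Λ * |s - t|) :
    Tendsto (fun n : ℕ => loopSum brk α β n) atTop (𝓝 (pp α β δ Q)) := by
  have hA0 : prim α β δ 0 = 0 := by
    have := prim_cell (α := α) (β := β) hδ 0 (s := 0) (by simp [hδ.le])
    rw [this]
    simp [pp, dd]
  have hAQ : prim α β δ (brk (Fin.last m)) = pp α β δ Q := by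
    have := prim_cell (α := α) (β := β) hδ Q (s := brk (Fin.last m)) (by
      rw [hQ]
      refine ⟨le_refl _, ?_⟩
      push_cast; nlinarith)
    rw [this, hQ]
    simp [dd]
  set K : ℝ := ∑ k : Fin m, 2 * Λ ^ 2 * (brk k.succ - brk k.castSucc) ^ 2 with hK
  have hle : ∀ k : Fin m, brk k.succ - brk k.castSucc ≤ Q * δ := by
    intro k
    have h1 : brk k.succ ≤ brk (Fin.last m) := hmono.monotone (Fin.le_last _)
    have h2 : brk 0 ≤ brk k.castSucc := hmono.monotone (Fin.zero_le _)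
    rw [hQ] at h1
    rw [h0] at h2
    linarith
  have hbound : ∀ n : ℕ, 0 < n → Q ≤ n → |loopSum brk α β n - pp α β δ Q| ≤ K / n := by
    intro n hn hQn
    have hnr : (0 : ℝ) < n := by exact_mod_cast hn
    have h1 : loopSum brk α β n - pp α β δ Q
        = ∑ k : Fin m, ∑ i ∈ range n, (dd α β (arc brk k ((i : ℝ) / n))
            (arc brk k (((i + 1 : ℕ) : ℝ) / n))
          - (prim α β δ (arc brk k (((i + 1 : ℕ) : ℝ) / n))
            - prim α β δ (arc brk k ((i : ℝ) / n)))) := by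
      have h2 := fin_telescope2 brk (prim α β δ) hn
      rw [h0, hA0, sub_zero, hAQ] at h2
      rw [← h2]
      unfold loopSum edge dd
      rw [← Finset.sum_sub_distrib]
      apply Finset.sum_congr rfl
      intro k _
      rw [← Finset.sum_sub_distrib]
    rw [h1]
    refine (Finset.abs_sum_le_sum_abs _ _).trans ?_
    rw [hK, Finset.sum_div]
    apply Finset.sum_le_sum
    intro k _
    refine (Finset.abs_sum_le_sum_abs _ _).trans ?_
    have hkpos : 0 < brk k.succ - brk k.castSucc := sub_pos.mpr (hmono Fin.castSucc_lt_succ)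
    have hk0 : 0 ≤ brk k.castSucc := by
      rw [← h0]; exact hmono.monotone (Fin.zero_le _)
    have hterm : ∀ i ∈ range n, |dd α β (arc brk k ((i : ℝ) / n))
            (arc brk k (((i + 1 : ℕ) : ℝ) / n))
          - (prim α β δ (arc brk k (((i + 1 : ℕ) : ℝ) / n))
            - prim α β δ (arc brk k ((i : ℝ) / n)))|
          ≤ 2 * Λ ^ 2 * ((brk k.succ - brk k.castSucc) / n) ^ 2 := by
      intro i _
      have hdiff : arc brk k (((i + 1 : ℕ) : ℝ) / n) - arc brk k ((i : ℝ) / n)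
          = (brk k.succ - brk k.castSucc) / n := by
        unfold arc
        push_cast; field_simp; ring
      have hpos : 0 ≤ (brk k.succ - brk k.castSucc) / n := by positivity
      have hs0 : 0 ≤ arc brk k ((i : ℝ) / n) := by
        unfold arc
        have : 0 ≤ (i : ℝ) / n * (brk k.succ - brk k.castSucc) := by positivity
        linarith
      have hstep : (brk k.succ - brk k.castSucc) / n ≤ δ := by
        rw [div_le_iff₀ hnr]
        have h3 : (Q : ℝ) ≤ n := by exact_mod_cast hQn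
        calc brk k.succ - brk k.castSucc ≤ Q * δ := hle k
          _ ≤ n * δ := mul_le_mul_of_nonneg_right h3 hδ.le
          _ = δ * n := mul_comm _ _
      have := dd_near hα hβ hδ hΛ hαl hβl hs0
        (t := arc brk k (((i + 1 : ℕ) : ℝ) / n)) (by linarith) (by linarith)
      rw [hdiff] at this
      exact this
    refine (Finset.sum_le_sum hterm).trans (le_of_eq ?_)
    rw [Finset.sum_const, card_range, nsmul_eq_mul]
    field_simp
  have h3 : Tendsto (fun n : ℕ => loopSum brk α β n - pp α β δ Q) atTop (𝓝 0) := by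
    apply squeeze_zero_norm' (a := fun n : ℕ => K / n)
    · filter_upwards [eventually_gt_atTop 0, eventually_ge_atTop Q] with n hn hn2
      rw [Real.norm_eq_abs]
      exact hbound n hn hn2
    · exact tendsto_const_div_atTop_nhds_zero_nat K
  have h4 := h3.add_const (pp α β δ Q)
  simpa using h4

end Pool.Agent.W664.Fill
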