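import Mathlib
import Pool.Agent.H115R3.Filling.Circle
import Pool.Agent.W664.Fill.Poly
import Pool.Agent.W664.Fill.Deriv

/-! # The functions on the boundary circle -/

open Finset Real Filter Topology Set

namespace Pool.Agent.W664.Fill

open Pool.Agent.H115R3.Filling

/-- Distance of `M` to the multiples of `4 N`. -/
def uM (N M : ℕ) : ℕ := min (M % (4 * N)) (4 * N - M % (4 * N))

/-- The distance of the points `i h` and `q h / 2` of the circle, in units of `h / 2`. -/
def uu (N i q : ℕ) : ℕ := uM N (2 * i + (4 * N - 1) * q)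

/-- The clamp to `[2 k - 1, 2 k + 1]`. -/
def cl (k a : ℕ) : ℕ := max (2 * k - 1) (min a (2 * k + 1))

lemma rho_nat_mul (x : ℝ) (j : ℕ) : rho (x + j * (2 * π)) = rho x := by
  induction j with
  | zero => simp
  | succ j ih =>
    have : x + ((j + 1 : ℕ) : ℝ) * (2 * π) = (x + j * (2 * π)) + 2 * π := by push_cast; ring
    rw [this, rho_periodic, ih]

section

variable {N : ℕ} (hN : 0 < N)

include hN

lemma uM_step (M : ℕ) : uM N (M + 1) = uM N M + 1 ∨ uM N M = uM N (M + 1) + 1 := by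
  unfold uM
  rcases Nat.lt_or_ge (M % (4 * N) + 1) (4 * N) with h | h
  · have e : (M + 1) % (4 * N) = M % (4 * N) + 1 := by
      rw [Nat.add_mod, Nat.mod_eq_of_lt (a := 1) (by omega), Nat.mod_eq_of_lt h]
    rw [e]
    omega
  · have hlt := Nat.mod_lt M (show 4 * N > 0 by omega)
    have e0 : M % (4 * N) + 1 = 4 * N := by omega
    have e : (M + 1) % (4 * N) = 0 := by
      rw [Nat.add_mod, Nat.mod_eq_of_lt (a := 1) (by omega), e0, Nat.mod_self]
    rw [e]
    omega

lemma rho_grid (M : ℕ) {x : ℝ} (hx0 : 0 ≤ x) (hx1 : x ≤ 1) :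
    rho ((M + x) * (π / (2 * N)))
      = π / (2 * N) * (uM N M + x * ((uM N (M + 1) : ℝ) - uM N M)) := by
  have hNr : (0 : ℝ) < N := by exact_mod_cast hN
  set δ : ℝ := π / (2 * N) with hδ
  have hδ0 : 0 < δ := by positivity
  have hπ : π = 2 * N * δ := by rw [hδ]; field_simp
  set r := M % (4 * N) with hr
  have hrlt : r < 4 * N := Nat.mod_lt M (by omega)
  have hM : (M : ℝ) = r + (4 * N : ℝ) * (M / (4 * N) : ℕ) := by
    have := Nat.mod_add_div M (4 * N)
    rw [← hr] at this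
    have h2 : ((r + 4 * N * (M / (4 * N)) : ℕ) : ℝ) = (M : ℝ) := by rw [this]
    push_cast at h2
    push_cast
    linarith
  have e1 : (M + x) * δ = (r + x) * δ + ((M / (4 * N) : ℕ) : ℝ) * (2 * π) := by
    rw [hM, hπ]; ring
  rw [e1, rho_nat_mul]
  have hrr : (r : ℝ) < 4 * N := by exact_mod_cast hrlt
  have hnext : (M + 1) % (4 * N) = if r + 1 < 4 * N then r + 1 else 0 := by
    split_ifs with h
    · rw [Nat.add_mod, Nat.mod_eq_of_lt (a := 1) (by omega), ← hr, Nat.mod_eq_of_lt h]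
    · have e0 : r + 1 = 4 * N := by omega
      rw [Nat.add_mod, Nat.mod_eq_of_lt (a := 1) (by omega), ← hr, e0, Nat.mod_self]
  rcases Nat.lt_or_ge r (2 * N) with h | h
  · have hr2 : (r : ℝ) + 1 ≤ 2 * N := by exact_mod_cast h
    have u1 : uM N M = r := by unfold uM; rw [← hr]; omega
    have u2 : uM N (M + 1) = r + 1 := by
      unfold uM; rw [hnext, if_pos (by omega)]; omega
    rw [u1, u2, rho_eq_self (by positivity) (by rw [hπ]; nlinarith)]
    push_cast; ring
  · have hr2 : (2 * N : ℝ) ≤ r := by exact_mod_cast h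
    have hr3 : (r : ℝ) + 1 ≤ 4 * N := by exact_mod_cast hrlt
    have u1 : uM N M = 4 * N - r := by unfold uM; rw [← hr]; omega
    have u2 : uM N (M + 1) = 4 * N - r - 1 := by
      unfold uM; rw [hnext]
      split_ifs with h5 <;> omega
    have c1 : ((4 * N - r : ℕ) : ℝ) = 4 * N - r := by
      rw [Nat.cast_sub hrlt.le]; push_cast; ring
    have c2 : ((4 * N - r - 1 : ℕ) : ℝ) = 4 * N - r - 1 := by
      rw [Nat.cast_sub (by omega), Nat.cast_sub hrlt.le]; push_cast; ring
    rw [u1, u2, c1, c2, ← rho_reflect, rho_eq_self (by rw [hπ]; nlinarith)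
      (by rw [hπ]; nlinarith)]
    rw [hπ]; ring

lemma clp_grid (k a b : ℕ) (hab : a = b + 1 ∨ b = a + 1) {x : ℝ} (hx0 : 0 ≤ x) (hx1 : x ≤ 1) :
    clp (π / N) k (π / (2 * N) * (a + x * ((b : ℝ) - a)))
      = π / (2 * N) * (cl k a + x * ((cl k b : ℝ) - cl k a)) := by
  have hNr : (0 : ℝ) < N := by exact_mod_cast hN
  set δ : ℝ := π / (2 * N) with hδ
  have hδ0 : 0 < δ := by positivity
  have hh : π / N = 2 * δ := by rw [hδ]; field_simp
  rw [hh]
  have hlo : ((k : ℝ) - 1 / 2) * (2 * δ) = (2 * k - 1) * δ := by ring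
  have hhi : ((k : ℝ) + 1 / 2) * (2 * δ) = (2 * k + 1) * δ := by ring
  have hcases : (a ≤ 2 * k - 1 ∧ b ≤ 2 * k - 1 ∧ 1 ≤ k) ∨ (2 * k + 1 ≤ a ∧ 2 * k + 1 ≤ b) ∨
      (2 * k - 1 ≤ a ∧ a ≤ 2 * k + 1 ∧ 2 * k - 1 ≤ b ∧ b ≤ 2 * k + 1) := by omega
  rcases hcases with ⟨h1, h2, h3⟩ | ⟨h1, h2⟩ | ⟨h1, h2, h3, h4⟩
  · have ca : cl k a = 2 * k - 1 := by unfold cl; omega
    have cb : cl k b = 2 * k - 1 := by unfold cl; omega
    have cc : ((2 * k - 1 : ℕ) : ℝ) = 2 * k - 1 := by
      rw [Nat.cast_sub (by omega)]; push_cast; ring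
    have h1r : (a : ℝ) ≤ 2 * k - 1 := by rw [← cc]; exact_mod_cast h1
    have h2r : (b : ℝ) ≤ 2 * k - 1 := by rw [← cc]; exact_mod_cast h2
    rw [ca, cb, clp_low, hlo, cc]
    · ring
    · rw [hlo, mul_comm]
      apply mul_le_mul_of_nonneg_right _ hδ0.le
      nlinarith
  · have ca : cl k a = 2 * k + 1 := by unfold cl; omega
    have cb : cl k b = 2 * k + 1 := by unfold cl; omega
    have h1r : (2 * k + 1 : ℝ) ≤ a := by exact_mod_cast h1
    have h2r : (2 * k + 1 : ℝ) ≤ b := by exact_mod_cast h2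
    rw [ca, cb, clp_high (by positivity), hhi]
    · push_cast; ring
    · rw [hhi, mul_comm δ]
      apply mul_le_mul_of_nonneg_right _ hδ0.le
      nlinarith
  · have ca : cl k a = a := by unfold cl; omega
    have cb : cl k b = b := by unfold cl; omega
    have h1r : (2 * k - 1 : ℝ) ≤ a := by
      have : 2 * k ≤ a + 1 := by omega
      have : (2 * k : ℝ) ≤ a + 1 := by exact_mod_cast this
      linarith
    have h3r : (2 * k - 1 : ℝ) ≤ b := by
      have : 2 * k ≤ b + 1 := by omega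
      have : (2 * k : ℝ) ≤ b + 1 := by exact_mod_cast this
      linarith
    have h2r : (a : ℝ) ≤ 2 * k + 1 := by exact_mod_cast h2
    have h4r : (b : ℝ) ≤ 2 * k + 1 := by exact_mod_cast h4
    rw [ca, cb]
    apply clp_mid
    · rw [hlo, mul_comm δ]
      apply mul_le_mul_of_nonneg_right _ hδ0.le
      nlinarith
    · rw [hhi, mul_comm δ]
      apply mul_le_mul_of_nonneg_right _ hδ0.le
      nlinarith

/-- Values of the clamped distance functions on a cell. -/
lemma clp_rho (i k q : ℕ) {x : ℝ} (hx0 : 0 ≤ x) (hx1 : x ≤ 1) :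
    clp (π / N) k (rho ((i : ℝ) * (π / N) - (q + x) * (π / (2 * N))))
      = π / (2 * N) * (cl k (uu N i q) + x * ((cl k (uu N i (q + 1)) : ℝ) - cl k (uu N i q))) := by
  have hNr : (0 : ℝ) < N := by exact_mod_cast hN
  set M := 2 * i + (4 * N - 1) * (q + 1) with hM
  have hM1 : uM N (M + 1) = uu N i q := by
    unfold uu uM
    have : M + 1 = 2 * i + (4 * N - 1) * q + 4 * N := by
      rw [hM]
      obtain ⟨n, hn⟩ : ∃ n, 4 * N = n + 1 := ⟨4 * N - 1, by omega⟩
      rw [hn]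
      simp only [Nat.add_sub_cancel]
      ring
    rw [this, Nat.add_mod_right]
  have hM0 : uM N M = uu N i (q + 1) := rfl
  have hMr : (M : ℝ) = 2 * i + (4 * N - 1) * (q + 1) := by
    rw [hM]
    have : ((4 * N - 1 : ℕ) : ℝ) = 4 * N - 1 := by
      rw [Nat.cast_sub (by omega)]; push_cast; ring
    push_cast [this]
    ring
  have e1 : rho ((i : ℝ) * (π / N) - (q + x) * (π / (2 * N)))
      = rho ((M + (1 - x)) * (π / (2 * N))) := by
    rw [← rho_nat_mul _ (q + 1)]
    congr 1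
    rw [hMr]
    push_cast
    field_simp
    ring
  rw [e1, rho_grid hN M (by linarith) (by linarith), clp_grid hN k _ _ (by
    rcases uM_step hN M with h | h
    · right; exact h
    · left; exact h) (by linarith) (by linarith), hM1, hM0]
  ring

lemma pwAff_clp (i k : ℕ) :
    PwAff (π / (2 * N)) (fun t => clp (π / N) k (rho ((i : ℝ) * (π / N) - t))) := by
  have hNr : (0 : ℝ) < N := by exact_mod_cast hN
  set δ : ℝ := π / (2 * N) with hδ
  have hδ0 : 0 < δ := by positivity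
  intro q
  refine ⟨(cl k (uu N i (q + 1)) : ℝ) - cl k (uu N i q), ?_⟩
  intro s hs
  have hq := clp_rho hN i k q (x := 0) (le_refl _) zero_le_one
  rw [add_zero, zero_mul, add_zero] at hq
  have hx0 : 0 ≤ s / δ - q := by
    have : (q : ℝ) ≤ s / δ := by rw [le_div_iff₀ hδ0]; exact hs.1
    linarith
  have hx1 : s / δ - q ≤ 1 := by
    have : s / δ ≤ ((q + 1 : ℕ) : ℝ) := by rw [div_le_iff₀ hδ0]; exact hs.2
    push_cast at this
    linarith
  have h1 := clp_rho hN i k q hx0 hx1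
  have h2 : ((q : ℝ) + (s / δ - q)) * δ = s := by field_simp; ring
  rw [← hδ, h2] at h1
  rw [← hδ] at hq
  simp only
  rw [h1, hq]
  field_simp

lemma clp_rho_grid (i k q : ℕ) : clp (π / N) k (rho ((i : ℝ) * (π / N) - q * (π / (2 * N))))
    = π / (2 * N) * cl k (uu N i q) := by
  have hq := clp_rho hN i k q (x := 0) (le_refl _) zero_le_one
  rw [add_zero, zero_mul, add_zero] at hq
  exact hq

/-- The polygonal sums. -/
lemma pp_clp (i j k l Q : ℕ) :
    pp (fun t => clp (π / N) l (rho ((j : ℝ) * (π / N) - t)))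
      (fun t => clp (π / N) k (rho ((i : ℝ) * (π / N) - t))) (π / (2 * N)) Q
      = (π / (2 * N)) ^ 2 * (∑ q ∈ range Q, ((cl l (uu N j q) * cl k (uu N i (q + 1)) : ℕ) : ℝ)
        - ∑ q ∈ range Q, ((cl l (uu N j (q + 1)) * cl k (uu N i q) : ℕ) : ℝ)) := by
  unfold pp dd
  rw [← Finset.sum_sub_distrib, Finset.mul_sum]
  apply Finset.sum_congr rfl
  intro q _
  beta_reduce
  rw [clp_rho_grid hN, clp_rho_grid hN, clp_rho_grid hN, clp_rho_grid hN]
  push_cast
  ring

end

lemma clp_rho_lip (N : ℕ) (i k : ℕ) (s t : ℝ) :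
    |clp (π / N) k (rho ((i : ℝ) * (π / N) - s)) - clp (π / N) k (rho ((i : ℝ) * (π / N) - t))|
      ≤ 1 * |s - t| := by
  refine (clp_lip _ _ _ _).trans ?_
  refine (rho_sub_le _ _).trans ?_
  rw [one_mul, ← abs_neg]
  apply le_of_eq
  congr 1
  ring

end Pool.Agent.W664.Fill
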