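/-! # Kernel-friendly definitions for the finite check

Hermitian Gaussian integer matrices, positive definiteness by elimination, and the enumeration of
configurations.  Integers are stored as differences of natural numbers, and all functions are
written with recursors, so that the kernel evaluates them quickly. -/

namespace Pool.Agent.W664.Fill

/-- Lists of Gaussian integers `(a - b) + (c - d) i`. -/
inductive R : Type
  | nil : R
  | cons (a b c d : Nat) (t : R) : R

/-- Triangles of rows: a diagonal entry `a - b` and the rest of the row. -/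
inductive T : Type
  | nil : T
  | cons (a b : Nat) (r : R) (t : T) : T

/-- `p • r - conj h • g`, with `h = (h1 - h2) + (h3 - h4) i`. -/
noncomputable def zipR (p h1 h2 h3 h4 : Nat) (r : R) : R → R :=
  R.rec (motive := fun _ => R → R) (fun _ => R.nil)
    (fun a b c d _ ih g => R.rec (motive := fun _ => R) R.nil
      (fun g1 g2 g3 g4 g' _ => R.cons
        (Nat.add (Nat.mul p a) (Nat.add (Nat.add (Nat.mul h1 g2) (Nat.mul h2 g1))
          (Nat.add (Nat.mul h3 g4) (Nat.mul h4 g3))))
        (Nat.add (Nat.mul p b) (Nat.add (Nat.add (Nat.mul h1 g1) (Nat.mul h2 g2))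
          (Nat.add (Nat.mul h3 g3) (Nat.mul h4 g4))))
        (Nat.add (Nat.mul p c) (Nat.add (Nat.add (Nat.mul h1 g4) (Nat.mul h2 g3))
          (Nat.add (Nat.mul h3 g1) (Nat.mul h4 g2))))
        (Nat.add (Nat.mul p d) (Nat.add (Nat.add (Nat.mul h1 g3) (Nat.mul h2 g4))
          (Nat.add (Nat.mul h3 g2) (Nat.mul h4 g1))))
        (ih g')) g) r

/-- One elimination step. -/
noncomputable def stepT (p : Nat) (h : R) : T → T :=
  R.rec (motive := fun _ => T → T) (fun _ => T.nil)
    (fun h1 h2 h3 h4 hs ih t => T.rec (motive := fun _ => T) T.nil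
      (fun a b r t' _ => T.cons
        (Nat.add (Nat.mul p a) (Nat.mul 2 (Nat.add (Nat.mul h1 h2) (Nat.mul h3 h4))))
        (Nat.add (Nat.mul p b) (Nat.add (Nat.add (Nat.mul h1 h1) (Nat.mul h2 h2))
          (Nat.add (Nat.mul h3 h3) (Nat.mul h4 h4))))
        (zipR p h1 h2 h3 h4 r hs) (ih t')) t) h

/-- Normalises the entries. -/
noncomputable def normR (r : R) : R :=
  R.rec (motive := fun _ => R) R.nil
    (fun a b c d _ ih => R.cons (Nat.sub a b) (Nat.sub b a) (Nat.sub c d) (Nat.sub d c) ih) r

/-- Checks positive definiteness. -/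
noncomputable def psdT (n : Nat) : T → Bool :=
  Nat.rec (motive := fun _ => T → Bool) (fun t => T.rec (motive := fun _ => Bool) true
      (fun _ _ _ _ _ => false) t)
    (fun _ ih t => T.rec (motive := fun _ => Bool) true
      (fun a b r t' _ => Bool.rec (motive := fun _ => Bool) false
        (ih (stepT (Nat.sub a b) (normR r) t')) (Nat.ble (Nat.succ b) a)) t) n

/-- Parameters of the tables: `n2 = N`, row length `w`, digit size `2 ^ bits`,
tables of positive and negative parts. -/
structure Par where
  /-- the number of functions -/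
  n2 : Nat
  /-- length of a row of the table -/
  w : Nat
  /-- bits of a digit -/
  bits : Nat
  /-- positive parts -/
  tp : Nat
  /-- negative parts -/
  tn : Nat

/-- Position in the tables. -/
noncomputable def pos (P : Par) (m p q : Nat) : Nat :=
  Nat.mul P.bits (Nat.add (Nat.mul (Nat.add (Nat.mul m P.w) p) P.w) q)

/-- Digit of a table. -/
noncomputable def dig (P : Par) (t i : Nat) : Nat :=
  Nat.mod (Nat.shiftRight t i) (Nat.pow 2 P.bits)

/-- Position in the tables of the coefficient with index `m` at `k`, `l`. -/
noncomputable def idx (P : Par) (m k l : Nat) : Nat :=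
  pos P m (Nat.add (Nat.sub k l) (Nat.sub l k))
    (Nat.add (Nat.sub (Nat.add k l) P.n2) (Nat.sub P.n2 (Nat.add k l)))

/-- The row of a new entry `k`, against the entries of the prefix with code `x`. -/
noncomputable def crowR (P : Par) (k : Nat) (n : Nat) : Nat → Nat → R :=
  Nat.rec (motive := fun _ => Nat → Nat → R) (fun _ _ => R.nil)
    (fun _ ih m x => R.cons 0 0 (dig P P.tp (idx P m k (Nat.mod x 16)))
      (dig P P.tn (idx P m k (Nat.mod x 16)))
      (ih (Nat.succ m) (Nat.div x 16))) n

/-- The Hermitian matrix of the configuration with code `x` and packed diagonal `L`. -/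
noncomputable def mkT (P : Par) (n : Nat) : Nat → Nat → T :=
  Nat.rec (motive := fun _ => Nat → Nat → T) (fun _ _ => T.nil)
    (fun n' ih x L => T.cons (Nat.mod L 1048576) 0 (crowR P (Nat.mod x 16) n' 1 (Nat.div x 16))
      (ih (Nat.div x 16) (Nat.div L 1048576))) n

/-- Sum of the packed diagonal. -/
noncomputable def dsum (n : Nat) : Nat → Nat :=
  Nat.rec (motive := fun _ => Nat → Nat) (fun _ => 0)
    (fun _ ih L => Nat.add (Nat.mod L 1048576) (ih (Nat.div L 1048576))) n

/-- The check at one configuration. -/
noncomputable def leafB (P : Par) (s2 x L : Nat) : Bool :=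
  Bool.rec (motive := fun _ => Bool) false (psdT P.n2 (mkT P P.n2 x L)) (Nat.ble (dsum P.n2 L) s2)

/-- List of pairs of natural numbers. -/
inductive D : Type
  | nil : D
  | cons (x L : Nat) (t : D) : D

/-- Append. -/
noncomputable def D.app (d e : D) : D :=
  D.rec (motive := fun _ => D) e (fun x L _ ih => D.cons x L ih) d

/-- The check at all configurations of a list. -/
noncomputable def chkD (P : Par) (s2 : Nat) (d : D) : Bool :=
  D.rec (motive := fun _ => Bool) true
    (fun x L _ ih => Bool.rec (motive := fun _ => Bool) false ih (leafB P s2 x L)) d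

/-- The code of the next window, with `B = 16 ^ (N - 1)`. -/
noncomputable def nextW (n2 B x : Nat) : Nat :=
  Nat.add (Nat.mul 16 (Nat.mod x B)) (Nat.sub n2 (Nat.div x B))

/-- The windows following `x`, `t` of them, have code at most `x0`. -/
noncomputable def canonB (n2 B x0 t : Nat) : Nat → Bool :=
  Nat.rec (motive := fun _ => Nat → Bool) (fun _ => true)
    (fun _ ih x => Bool.rec (motive := fun _ => Bool) false (ih (nextW n2 B x)) (Nat.ble x x0)) t

/-- Optional list. -/
inductive O : Type
  | none : O
  | some (d : D) : O

/-- A leaf of the enumeration: a canonical configuration must be next in the list. -/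
noncomputable def leafO (n2 B M k x : Nat) (d : D) : O :=
  Bool.rec (motive := fun _ => O) (O.some d)
    (Bool.rec (motive := fun _ => O) (O.some d)
      (Bool.rec (motive := fun _ => O) (O.some d)
        (D.rec (motive := fun _ => O) O.none
          (fun y _ t _ => Bool.rec (motive := fun _ => O) O.none (O.some t) (Nat.beq x y)) d)
        (canonB n2 B x (Nat.mul 2 n2) x))
      (Nat.ble (Nat.add k M) (Nat.succ n2)))
    (Nat.ble n2 (Nat.succ (Nat.add k M)))

/-- Enumeration of the continuations of a prefix with last entry `k` and code `x`. -/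
noncomputable def enumO (n2 B M : Nat) (r : Nat) : Nat → Nat → D → O :=
  Nat.rec (motive := fun _ => Nat → Nat → D → O) (fun k x d => leafO n2 B M k x d)
    (fun _ ih k x d =>
      O.rec (motive := fun _ => O) O.none
        (fun d1 => O.rec (motive := fun _ => O) O.none
          (fun d2 => Bool.rec (motive := fun _ => O) (O.some d2)
            (ih (Nat.add k 1) (Nat.add (Nat.mul 16 x) (Nat.add k 1)) d2)
            (Nat.ble (Nat.add k 1) M))
          (ih k (Nat.add (Nat.mul 16 x) k) d1))
        (Bool.rec (motive := fun _ => O) (O.some d)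
          (ih (Nat.sub k 1) (Nat.add (Nat.mul 16 x) (Nat.sub k 1)) d)
          (Nat.ble (Nat.succ (Nat.sub n2 M)) k))) r

/-- Enumeration for all first entries `M ≤ t`, where `n2 ≤ 2 M`. -/
noncomputable def enumM (n2 B : Nat) (t : Nat) : D → O :=
  Nat.rec (motive := fun _ => D → O)
    (fun d => Bool.rec (motive := fun _ => O) (O.some d)
      (enumO n2 B 0 (Nat.sub n2 1) 0 0 d) (Nat.ble n2 0))
    (fun t' ih d => O.rec (motive := fun _ => O) O.none
      (fun d1 => Bool.rec (motive := fun _ => O) (O.some d1)
        (enumO n2 B (Nat.succ t') (Nat.sub n2 1) (Nat.succ t') (Nat.succ t') d1)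
        (Nat.ble n2 (Nat.mul 2 (Nat.succ t')))) (ih d)) t

/-- The enumeration consumes exactly the list. -/
noncomputable def complB (n2 : Nat) (d : D) : Bool :=
  O.rec (motive := fun _ => Bool) false (fun _ => true)
    (enumM n2 (Nat.pow 16 (Nat.sub n2 1)) n2 d)

/-- Symmetry of the tables. -/
noncomputable def symB (P : Par) (N : Nat) : Bool :=
  Nat.rec (motive := fun _ => Bool) true (fun m ihm => Bool.rec (motive := fun _ => Bool) false
    (Nat.rec (motive := fun _ => Bool) true (fun p ihp => Bool.rec (motive := fun _ => Bool) false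
      (Nat.rec (motive := fun _ => Bool) true (fun q ihq => Bool.rec (motive := fun _ => Bool) false
        (Bool.rec (motive := fun _ => Bool) false
          (Nat.beq (dig P P.tn (pos P m p q)) (dig P P.tn (pos P (Nat.sub N m) q p)))
          (Nat.beq (dig P P.tp (pos P m p q)) (dig P P.tp (pos P (Nat.sub N m) q p))))
        ihq) (Nat.succ N)) ihp) (Nat.succ N)) ihm) N

end Pool.Agent.W664.Fill
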