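import Mathlib
import Pool.Agent.W664.Fill.Kern

/-! # Soundness of the elimination test -/

namespace Pool.Agent.W664.Fill

open Finset

/-! ### Unfolding equations -/

lemma zipR_nil (p h1 h2 h3 h4 : ℕ) (g : R) : zipR p h1 h2 h3 h4 R.nil g = R.nil := rfl

lemma zipR_cons_nil (p h1 h2 h3 h4 a b c d : ℕ) (r : R) :
    zipR p h1 h2 h3 h4 (R.cons a b c d r) R.nil = R.nil := rfl

lemma zipR_cons (p h1 h2 h3 h4 a b c d g1 g2 g3 g4 : ℕ) (r g : R) :
    zipR p h1 h2 h3 h4 (R.cons a b c d r) (R.cons g1 g2 g3 g4 g) = R.cons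
      (p * a + ((h1 * g2 + h2 * g1) + (h3 * g4 + h4 * g3)))
      (p * b + ((h1 * g1 + h2 * g2) + (h3 * g3 + h4 * g4)))
      (p * c + ((h1 * g4 + h2 * g3) + (h3 * g1 + h4 * g2)))
      (p * d + ((h1 * g3 + h2 * g4) + (h3 * g2 + h4 * g1)))
      (zipR p h1 h2 h3 h4 r g) := rfl

lemma stepT_cons (p h1 h2 h3 h4 a b : ℕ) (hs r : R) (t : T) :
    stepT p (R.cons h1 h2 h3 h4 hs) (T.cons a b r t) = T.cons
      (p * a + 2 * (h1 * h2 + h3 * h4))
      (p * b + ((h1 * h1 + h2 * h2) + (h3 * h3 + h4 * h4)))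
      (zipR p h1 h2 h3 h4 r hs) (stepT p hs t) := rfl

lemma normR_cons (a b c d : ℕ) (r : R) :
    normR (R.cons a b c d r) = R.cons (a - b) (b - a) (c - d) (d - c) (normR r) := rfl

lemma psdT_succ (n a b : ℕ) (r : R) (t : T) :
    psdT (n + 1) (T.cons a b r t)
      = (if b + 1 ≤ a then psdT n (stepT (a - b) (normR r) t) else false) := by
  have h1 : psdT (n + 1) (T.cons a b r t) = Bool.rec (motive := fun _ => Bool) false
      (psdT n (stepT (a - b) (normR r) t)) (Nat.ble (b + 1) a) := rfl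
  rw [h1]
  by_cases h : b + 1 ≤ a
  · rw [if_pos h, Nat.ble_eq_true_of_le h]
  · rw [if_neg h]
    have : Nat.ble (b + 1) a = false := by
      rw [← Bool.not_eq_true]
      intro h2
      exact h (Nat.le_of_ble_eq_true h2)
    rw [this]

/-! ### The forms -/

section

variable (X Y : ℕ → ℝ)

/-- Real part of the pairing of a row with the vector. -/
def evRe : R → ℕ → ℝ
  | R.cons a b c d t, n + 1 => ((a : ℝ) - b) * X n - ((c : ℝ) - d) * Y n + evRe t n
  | _, _ => 0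

/-- Imaginary part of the pairing of a row with the vector. -/
def evIm : R → ℕ → ℝ
  | R.cons a b c d t, n + 1 => ((a : ℝ) - b) * Y n + ((c : ℝ) - d) * X n + evIm t n
  | _, _ => 0

/-- The Hermitian form. -/
def evT : T → ℕ → ℝ
  | T.cons a b r t, n + 1 => ((a : ℝ) - b) * (X n ^ 2 + Y n ^ 2)
      + 2 * (X n * evRe X Y r n + Y n * evIm X Y r n) + evT t n
  | _, _ => 0

end

/-- The row has length `n`. -/
def lenR : R → ℕ → Prop
  | R.nil, 0 => True
  | R.cons _ _ _ _ t, n + 1 => lenR t n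
  | _, _ => False

/-- The triangle has size `n`. -/
def lenT : T → ℕ → Prop
  | T.nil, 0 => True
  | T.cons _ _ r t, n + 1 => lenR r n ∧ lenT t n
  | _, _ => False

lemma natsub_cast (a b : ℕ) : (((a - b : ℕ) : ℝ) - ((b - a : ℕ) : ℝ)) = (a : ℝ) - b := by
  rcases le_total a b with h | h
  · rw [Nat.sub_eq_zero_of_le h, Nat.cast_sub h]; simp
  · rw [Nat.sub_eq_zero_of_le h, Nat.cast_sub h]; simp

lemma normR_spec (X Y : ℕ → ℝ) : ∀ (r : R) (n : ℕ), lenR r n →
    lenR (normR r) n ∧ evRe X Y (normR r) n = evRe X Y r n ∧ evIm X Y (normR r) n = evIm X Y r n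
  | R.nil, 0, _ => ⟨trivial, rfl, rfl⟩
  | R.nil, _ + 1, h => h.elim
  | R.cons _ _ _ _ _, 0, h => h.elim
  | R.cons a b c d t, n + 1, h => by
    obtain ⟨h1, h2, h3⟩ := normR_spec X Y t n h
    rw [normR_cons]
    refine ⟨h1, ?_, ?_⟩
    · simp only [evRe, h2, natsub_cast]
    · simp only [evIm, h3, natsub_cast]

lemma zipR_spec (X Y : ℕ → ℝ) (p h1 h2 h3 h4 : ℕ) : ∀ (r g : R) (n : ℕ), lenR r n → lenR g n →
    lenR (zipR p h1 h2 h3 h4 r g) n ∧
    evRe X Y (zipR p h1 h2 h3 h4 r g) n = p * evRe X Y r n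
      - (((h1 : ℝ) - h2) * evRe X Y g n + ((h3 : ℝ) - h4) * evIm X Y g n) ∧
    evIm X Y (zipR p h1 h2 h3 h4 r g) n = p * evIm X Y r n
      - (((h1 : ℝ) - h2) * evIm X Y g n - ((h3 : ℝ) - h4) * evRe X Y g n)
  | R.nil, R.nil, 0, _, _ => by
    refine ⟨trivial, ?_, ?_⟩
    · simp [zipR_nil, evRe, evIm]
    · simp [zipR_nil, evRe, evIm]
  | R.nil, _, _ + 1, h, _ => h.elim
  | R.cons _ _ _ _ _, _, 0, h, _ => h.elim
  | R.nil, R.cons _ _ _ _ _, 0, _, h => h.elim
  | R.cons _ _ _ _ _, R.nil, _ + 1, _, h => h.elim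
  | R.cons a b c d r, R.cons g1 g2 g3 g4 g, n + 1, hr, hg => by
    obtain ⟨e1, e2, e3⟩ := zipR_spec X Y p h1 h2 h3 h4 r g n hr hg
    rw [zipR_cons]
    refine ⟨e1, ?_, ?_⟩
    · simp only [evRe, evIm, e2]
      push_cast
      ring
    · simp only [evRe, evIm, e3]
      push_cast
      ring

lemma stepT_spec (X Y : ℕ → ℝ) (p : ℕ) : ∀ (h : R) (t : T) (n : ℕ), lenR h n → lenT t n →
    lenT (stepT p h t) n ∧
    evT X Y (stepT p h t) n = p * evT X Y t n - (evRe X Y h n ^ 2 + evIm X Y h n ^ 2)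
  | R.nil, T.nil, 0, _, _ => by
    refine ⟨trivial, ?_⟩
    simp [stepT, evT, evRe, evIm]
  | R.nil, _, _ + 1, h, _ => h.elim
  | R.cons _ _ _ _ _, _, 0, h, _ => h.elim
  | R.nil, T.cons _ _ _ _, 0, _, h => h.elim
  | R.cons _ _ _ _ _, T.nil, _ + 1, _, h => h.elim
  | R.cons h1 h2 h3 h4 hs, T.cons a b r t, n + 1, hh, ht => by
    obtain ⟨e1, e2⟩ := stepT_spec X Y p hs t n hh ht.2
    obtain ⟨f1, f2, f3⟩ := zipR_spec X Y p h1 h2 h3 h4 r hs n ht.1 hh
    rw [stepT_cons]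
    refine ⟨⟨f1, e1⟩, ?_⟩
    simp only [evT, evRe, evIm, e2, f2, f3]
    push_cast
    ring

/-- Soundness of the elimination test. -/
lemma evT_nonneg (X Y : ℕ → ℝ) : ∀ (n : ℕ) (t : T), lenT t n → psdT n t = true →
    0 ≤ evT X Y t n
  | 0, T.nil, _, _ => le_refl _
  | 0, T.cons _ _ _ _, h, _ => h.elim
  | _ + 1, T.nil, h, _ => h.elim
  | n + 1, T.cons a b r t, hl, h => by
    rw [psdT_succ] at h
    split_ifs at h with hab
    obtain ⟨g1, g2, g3⟩ := normR_spec X Y r n hl.1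
    obtain ⟨e1, e2⟩ := stepT_spec X Y (a - b) (normR r) t n g1 hl.2
    have ih := evT_nonneg X Y n _ e1 h
    rw [e2, g2, g3] at ih
    have hp : (0 : ℝ) < ((a - b : ℕ) : ℝ) := by
      have : 0 < a - b := by omega
      exact_mod_cast this
    have hc : ((a - b : ℕ) : ℝ) = (a : ℝ) - b := by
      rw [Nat.cast_sub (by omega)]
    rw [hc] at ih hp
    have key : ((a : ℝ) - b) * evT X Y (T.cons a b r t) (n + 1)
        = (((a : ℝ) - b) * X n + evRe X Y r n) ^ 2 + (((a : ℝ) - b) * Y n + evIm X Y r n) ^ 2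
          + (((a : ℝ) - b) * evT X Y t n - (evRe X Y r n ^ 2 + evIm X Y r n ^ 2)) := by
      simp only [evT]
      ring
    have h0 : 0 ≤ ((a : ℝ) - b) * evT X Y (T.cons a b r t) (n + 1) := by
      rw [key]
      exact add_nonneg (add_nonneg (sq_nonneg _) (sq_nonneg _)) ih
    exact nonneg_of_mul_nonneg_right h0 hp

/-! ### Codes -/

/-- The code of the first `i` digits. -/
def pc (a : ℕ → ℕ) : ℕ → ℕ
  | 0 => 0
  | i + 1 => 16 * pc a i + a i

lemma pc_mod {a : ℕ → ℕ} {i : ℕ} (h : a i < 16) : pc a (i + 1) % 16 = a i := by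
  simp only [pc]; omega

lemma pc_div {a : ℕ → ℕ} {i : ℕ} (h : a i < 16) : pc a (i + 1) / 16 = pc a i := by
  simp only [pc]; omega

/-- The value of the coefficient. -/
noncomputable def cv (P : Par) (m k l : ℕ) : ℝ :=
  (dig P P.tp (idx P m k l) : ℝ) - (dig P P.tn (idx P m k l) : ℝ)

lemma crowR_succ (P : Par) (k n m x : ℕ) : crowR P k (n + 1) m x
    = R.cons 0 0 (dig P P.tp (idx P m k (x % 16))) (dig P P.tn (idx P m k (x % 16)))
      (crowR P k n (m + 1) (x / 16)) := rfl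

lemma mkT_succ (P : Par) (n x L : ℕ) : mkT P (n + 1) x L
    = T.cons (L % 1048576) 0 (crowR P (x % 16) n 1 (x / 16)) (mkT P n (x / 16) (L / 1048576)) :=
  rfl

lemma dsum_succ (n L : ℕ) : dsum (n + 1) L = L % 1048576 + dsum n (L / 1048576) := rfl

lemma crowR_spec (P : Par) (X Y : ℕ → ℝ) (k : ℕ) (a : ℕ → ℕ) :
    ∀ (n m : ℕ), (∀ i < n, a i < 16) → lenR (crowR P k n m (pc a n)) n ∧
    evRe X Y (crowR P k n m (pc a n)) n
      = -∑ j ∈ range n, cv P (m + (n - 1 - j)) k (a j) * Y j ∧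
    evIm X Y (crowR P k n m (pc a n)) n
      = ∑ j ∈ range n, cv P (m + (n - 1 - j)) k (a j) * X j
  | 0, m, _ => by
    refine ⟨trivial, ?_, ?_⟩
    · simp [crowR, evRe]
    · simp [crowR, evIm]
  | n + 1, m, h => by
    obtain ⟨e1, e2, e3⟩ := crowR_spec P X Y k a n (m + 1) (fun i hi => h i (by omega))
    rw [crowR_succ, pc_mod (h n (by omega)), pc_div (h n (by omega))]
    have hs : ∀ f : ℕ → ℝ, ∑ j ∈ range n, cv P (m + 1 + (n - 1 - j)) k (a j) * f j
        = ∑ j ∈ range n, cv P (m + (n + 1 - 1 - j)) k (a j) * f j := by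
      intro f
      apply Finset.sum_congr rfl
      intro j hj
      have := Finset.mem_range.mp hj
      have e : m + 1 + (n - 1 - j) = m + (n + 1 - 1 - j) := by omega
      rw [e]
    refine ⟨e1, ?_, ?_⟩
    · simp only [evRe, e2]
      rw [Finset.sum_range_succ, hs]
      have e : m + (n + 1 - 1 - n) = m := by omega
      rw [e]
      simp only [cv]
      push_cast
      ring
    · simp only [evIm, e3]
      rw [Finset.sum_range_succ, hs]
      have e : m + (n + 1 - 1 - n) = m := by omega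
      rw [e]
      simp only [cv]
      push_cast
      ring

/-- The bilinear sum of a configuration. -/
noncomputable def Fsum (P : Par) (a : ℕ → ℕ) (X Y : ℕ → ℝ) (n : ℕ) : ℝ :=
  ∑ i ∈ range n, ∑ j ∈ range i, cv P (i - j) (a i) (a j) * (X i * Y j - Y i * X j)

lemma mkT_spec (P : Par) (X Y : ℕ → ℝ) (B : ℝ) (hB : ∀ i, X i ^ 2 + Y i ^ 2 ≤ B)
    (a : ℕ → ℕ) : ∀ (n L : ℕ), (∀ i < n, a i < 16) → lenT (mkT P n (pc a n) L) n ∧
    evT X Y (mkT P n (pc a n) L) n ≤ B * dsum n L - 2 * Fsum P a X Y n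
  | 0, L, _ => by
    refine ⟨trivial, ?_⟩
    simp [mkT, evT, dsum, Fsum]
  | n + 1, L, h => by
    obtain ⟨e1, e2⟩ := mkT_spec P X Y B hB a n (L / 1048576) (fun i hi => h i (by omega))
    obtain ⟨f1, f2, f3⟩ := crowR_spec P X Y (a n) a n 1 (fun i hi => h i (by omega))
    rw [mkT_succ, pc_mod (h n (by omega)), pc_div (h n (by omega)), dsum_succ]
    refine ⟨⟨f1, e1⟩, ?_⟩
    simp only [evT, f2, f3]
    have hF : Fsum P a X Y (n + 1) = Fsum P a X Y n
        + ∑ j ∈ range n, cv P (n - j) (a n) (a j) * (X n * Y j - Y n * X j) := by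
      unfold Fsum
      rw [Finset.sum_range_succ]
    have hs : X n * -∑ j ∈ range n, cv P (1 + (n - 1 - j)) (a n) (a j) * Y j
        + Y n * ∑ j ∈ range n, cv P (1 + (n - 1 - j)) (a n) (a j) * X j
        = -∑ j ∈ range n, cv P (n - j) (a n) (a j) * (X n * Y j - Y n * X j) := by
      rw [mul_neg, Finset.mul_sum, Finset.mul_sum, ← Finset.sum_neg_distrib,
        ← Finset.sum_neg_distrib, ← Finset.sum_add_distrib]
      apply Finset.sum_congr rfl
      intro j hj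
      have := Finset.mem_range.mp hj
      have e : 1 + (n - 1 - j) = n - j := by omega
      rw [e]
      ring
    rw [hs, hF]
    have hd : ((L % 1048576 : ℕ) : ℝ) * (X n ^ 2 + Y n ^ 2) ≤ ((L % 1048576 : ℕ) : ℝ) * B :=
      mul_le_mul_of_nonneg_left (hB n) (Nat.cast_nonneg _)
    push_cast at hd e2 ⊢
    linarith

/-- The check at one configuration gives the inequality. -/
lemma leafB_sound (P : Par) (s2 : ℕ) (a : ℕ → ℕ) (ha : ∀ i < P.n2, a i < 16) (L : ℕ)
    (h : leafB P s2 (pc a P.n2) L = true) (X Y : ℕ → ℝ) (B : ℝ)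
    (hB : ∀ i, X i ^ 2 + Y i ^ 2 ≤ B) : 2 * Fsum P a X Y P.n2 ≤ B * s2 := by
  have hB0 : 0 ≤ B := le_trans (add_nonneg (sq_nonneg _) (sq_nonneg _)) (hB 0)
  have h1 : leafB P s2 (pc a P.n2) L = Bool.rec (motive := fun _ => Bool) false
    (psdT P.n2 (mkT P P.n2 (pc a P.n2) L)) (Nat.ble (dsum P.n2 L) s2) := rfl
  rw [h1] at h
  have h2 : Nat.ble (dsum P.n2 L) s2 = true := by
    by_contra hne
    rw [Bool.not_eq_true] at hne
    rw [hne] at h
    exact Bool.false_ne_true h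
  rw [h2] at h
  obtain ⟨e1, e2⟩ := mkT_spec P X Y B hB a P.n2 L ha
  have e3 := evT_nonneg X Y P.n2 _ e1 h
  have e4 : ((dsum P.n2 L : ℕ) : ℝ) ≤ s2 := by exact_mod_cast Nat.le_of_ble_eq_true h2
  have e5 := mul_le_mul_of_nonneg_left e4 hB0
  linarith

end Pool.Agent.W664.Fill
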