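import Mathlib
import Pool.Agent.W664.Fill.Sound

/-! # Soundness of the enumeration of configurations -/

namespace Pool.Agent.W664.Fill

open Finset

/-- Membership. -/
def Dmem (x L : ℕ) : D → Prop
  | D.nil => False
  | D.cons y K t => (x = y ∧ L = K) ∨ Dmem x L t

lemma Dmem_app (x L : ℕ) : ∀ d e : D, Dmem x L (D.app d e) ↔ Dmem x L d ∨ Dmem x L e
  | D.nil, e => by
    have : D.app D.nil e = e := rfl
    rw [this]; simp [Dmem]
  | D.cons y K t, e => by
    have : D.app (D.cons y K t) e = D.cons y K (D.app t e) := rfl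
    rw [this]
    simp only [Dmem, Dmem_app x L t e, or_assoc]

lemma chkD_sound (P : Par) (s2 : ℕ) : ∀ (d : D), chkD P s2 d = true →
    ∀ x L, Dmem x L d → leafB P s2 x L = true
  | D.nil, _, _, _, h => h.elim
  | D.cons y K t, h, x, L, hm => by
    have h1 : chkD P s2 (D.cons y K t) = Bool.rec (motive := fun _ => Bool) false
      (chkD P s2 t) (leafB P s2 y K) := rfl
    rw [h1] at h
    have h2 : leafB P s2 y K = true := by
      by_contra hne
      rw [Bool.not_eq_true] at hne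
      rw [hne] at h
      exact Bool.false_ne_true h
    rw [h2] at h
    rcases hm with ⟨rfl, rfl⟩ | hm
    · exact h2
    · exact chkD_sound P s2 t h x L hm

lemma app_ok {Q : ℕ → ℕ → Prop} {d e : D} (hd : ∀ x L, Dmem x L d → Q x L)
    (he : ∀ x L, Dmem x L e → Q x L) : ∀ x L, Dmem x L (D.app d e) → Q x L := by
  intro x L h
  rcases (Dmem_app x L d e).mp h with h | h
  · exact hd x L h
  · exact he x L h

/-- Bind. -/
def O.bnd (o : O) (f : D → O) : O :=
  match o with
  | O.none => O.none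
  | O.some d => f d

lemma bnd_some {o : O} {f : D → O} {e : D} (h : o.bnd f = O.some e) :
    ∃ d, o = O.some d ∧ f d = O.some e := by
  cases o with
  | none => exact absurd h (by simp [O.bnd])
  | some d => exact ⟨d, rfl, h⟩

lemma orec_eq (o : O) (f : D → O) : O.rec (motive := fun _ => O) O.none f o = o.bnd f := by
  cases o <;> rfl

lemma brec_ite (c : Prop) [Decidable c] (b : Bool) (hb : b = true ↔ c) {α : Type} (x y : α) :
    Bool.rec (motive := fun _ => α) y x b = if c then x else y := by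
  by_cases h : c
  · rw [if_pos h, hb.mpr h]
  · rw [if_neg h]
    have : b = false := by
      rw [← Bool.not_eq_true]; exact fun h' => h (hb.mp h')
    rw [this]

lemma ble_iff (a b : ℕ) : Nat.ble a b = true ↔ a ≤ b :=
  ⟨Nat.le_of_ble_eq_true, Nat.ble_eq_true_of_le⟩

lemma beq_iff (a b : ℕ) : Nat.beq a b = true ↔ a = b :=
  ⟨Nat.eq_of_beq_eq_true, fun h => by rw [h]; exact Nat.beq_refl b⟩

lemma enumO_succ (n2 B M r k x : ℕ) (d : D) : enumO n2 B M (r + 1) k x d
    = O.bnd (if n2 - M + 1 ≤ k then enumO n2 B M r (k - 1) (16 * x + (k - 1)) d else O.some d)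
      (fun d1 => O.bnd (enumO n2 B M r k (16 * x + k) d1)
        (fun d2 => if k + 1 ≤ M then enumO n2 B M r (k + 1) (16 * x + (k + 1)) d2
          else O.some d2)) := by
  have h1 : enumO n2 B M (r + 1) k x d =
      O.rec (motive := fun _ => O) O.none
        (fun d1 => O.rec (motive := fun _ => O) O.none
          (fun d2 => Bool.rec (motive := fun _ => O) (O.some d2)
            (enumO n2 B M r (k + 1) (16 * x + (k + 1)) d2)
            (Nat.ble (k + 1) M))
          (enumO n2 B M r k (16 * x + k) d1))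
        (Bool.rec (motive := fun _ => O) (O.some d)
          (enumO n2 B M r (k - 1) (16 * x + (k - 1)) d)
          (Nat.ble (n2 - M + 1) k)) := rfl
  rw [h1, orec_eq, brec_ite (n2 - M + 1 ≤ k) _ (ble_iff _ _)]
  congr 1
  funext d1
  rw [orec_eq]
  congr 1
  funext d2
  rw [brec_ite (k + 1 ≤ M) _ (ble_iff _ _)]

lemma leafO_eq (n2 B M k x : ℕ) (d : D) : leafO n2 B M k x d =
    if n2 ≤ k + M + 1 then
      if k + M ≤ n2 + 1 then
        if canonB n2 B x (2 * n2) x = true then
          match d with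
          | D.nil => O.none
          | D.cons y _ t => if x = y then O.some t else O.none
        else O.some d
      else O.some d
    else O.some d := by
  have h1 : leafO n2 B M k x d = Bool.rec (motive := fun _ => O) (O.some d)
    (Bool.rec (motive := fun _ => O) (O.some d)
      (Bool.rec (motive := fun _ => O) (O.some d)
        (D.rec (motive := fun _ => O) O.none
          (fun y _ t _ => Bool.rec (motive := fun _ => O) O.none (O.some t) (Nat.beq x y)) d)
        (canonB n2 B x (2 * n2) x))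
      (Nat.ble (k + M) (n2 + 1)))
    (Nat.ble n2 (k + M + 1)) := rfl
  rw [h1, brec_ite (n2 ≤ k + M + 1) _ (ble_iff _ _), brec_ite (k + M ≤ n2 + 1) _ (ble_iff _ _),
    brec_ite (canonB n2 B x (2 * n2) x = true) _ Iff.rfl]
  cases d with
  | nil => rfl
  | cons y K t =>
    simp only
    rw [brec_ite (x = y) _ (beq_iff _ _)]

lemma leafO_mem {n2 B M k x : ℕ} {d e : D} (h : leafO n2 B M k x d = O.some e) :
    ∀ y L, Dmem y L e → Dmem y L d := by
  rw [leafO_eq] at h
  intro y L hy
  split_ifs at h with h1 h2 h3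
  · cases d with
    | nil => simp at h
    | cons z K t =>
      simp only at h
      split_ifs at h with h4
      have : t = e := by injection h
      rw [this]
      exact Or.inr hy
  all_goals
    have : d = e := by injection h
    rw [this]
    exact hy

lemma leafO_found {n2 B M k x : ℕ} {d e : D} (h : leafO n2 B M k x d = O.some e)
    (h1 : n2 ≤ k + M + 1) (h2 : k + M ≤ n2 + 1) (h3 : canonB n2 B x (2 * n2) x = true) :
    ∃ L, Dmem x L d := by
  rw [leafO_eq, if_pos h1, if_pos h2, if_pos h3] at h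
  cases d with
  | nil => simp at h
  | cons z K t =>
    simp only at h
    split_ifs at h with h4
    exact ⟨K, Or.inl ⟨h4, rfl⟩⟩

lemma enumO_mem (n2 B M : ℕ) : ∀ (r k x : ℕ) (d e : D), enumO n2 B M r k x d = O.some e →
    ∀ y L, Dmem y L e → Dmem y L d
  | 0, k, x, d, e, h, y, L, hy => leafO_mem (n2 := n2) (B := B) (M := M) (k := k) (x := x) h y L hy
  | r + 1, k, x, d, e, h, y, L, hy => by
    rw [enumO_succ] at h
    obtain ⟨d1, h1, h⟩ := bnd_some h
    obtain ⟨d2, h2, h⟩ := bnd_some h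
    have m3 : Dmem y L d2 := by
      split_ifs at h with hc
      · exact enumO_mem n2 B M r _ _ _ _ h y L hy
      · have : d2 = e := by injection h
        rw [this]; exact hy
    have m2 := enumO_mem n2 B M r _ _ _ _ h2 y L m3
    split_ifs at h1 with hc
    · exact enumO_mem n2 B M r _ _ _ _ h1 y L m2
    · have : d = d1 := by injection h1
      rw [this]; exact m2

lemma enumO_found (n2 B M : ℕ) (a : ℕ → ℕ) (N : ℕ) (hlo : ∀ i, n2 - M ≤ a i)
    (hhi : ∀ i, a i ≤ M) (hadj : ∀ i, a i ≤ a (i + 1) + 1 ∧ a (i + 1) ≤ a i + 1)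
    (hl1 : n2 ≤ a (N - 1) + M + 1) (hl2 : a (N - 1) + M ≤ n2 + 1)
    (hcan : canonB n2 B (pc a N) (2 * n2) (pc a N) = true) :
    ∀ (r i : ℕ) (d e : D), i + 1 + r = N →
      enumO n2 B M r (a i) (pc a (i + 1)) d = O.some e → ∃ L, Dmem (pc a N) L d
  | 0, i, d, e, hi, h => by
    have e1 : i + 1 = N := by omega
    have e2 : i = N - 1 := by omega
    rw [e1] at h
    rw [e2] at h
    exact leafO_found (n2 := n2) (B := B) (M := M) h hl1 hl2 hcan
  | r + 1, i, d, e, hi, h => by
    rw [enumO_succ] at h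
    obtain ⟨d1, h1, h⟩ := bnd_some h
    obtain ⟨d2, h2, h⟩ := bnd_some h
    have hx : ∀ v, v = a (i + 1) → 16 * pc a (i + 1) + v = pc a (i + 1 + 1) := by
      intro v hv; rw [hv]; rfl
    have g1 : ∀ y L, Dmem y L d1 → Dmem y L d := by
      intro y L hy
      split_ifs at h1 with hc
      · exact enumO_mem n2 B M r _ _ _ _ h1 y L hy
      · have : d = d1 := by injection h1
        rw [this]; exact hy
    have g2 := enumO_mem n2 B M r _ _ _ _ h2
    obtain ⟨ha1, ha2⟩ := hadj i
    have hcases : a (i + 1) = a i - 1 ∧ 1 ≤ a i ∨ a (i + 1) = a i ∨ a (i + 1) = a i + 1 := by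
      omega
    rcases hcases with ⟨hc, hc1⟩ | hc | hc
    · have hguard : n2 - M + 1 ≤ a i := by
        have := hlo (i + 1)
        omega
      rw [if_pos hguard, hx _ hc.symm, ← hc] at h1
      exact enumO_found n2 B M a N hlo hhi hadj hl1 hl2 hcan r (i + 1) d d1 (by omega) h1
    · rw [hx _ hc.symm] at h2
      rw [← hc] at h2
      obtain ⟨L, hL⟩ := enumO_found n2 B M a N hlo hhi hadj hl1 hl2 hcan r (i + 1) d1 d2
        (by omega) h2
      exact ⟨L, g1 _ _ hL⟩
    · have hguard : a i + 1 ≤ M := by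
        have := hhi (i + 1)
        omega
      rw [if_pos hguard, hx _ hc.symm, ← hc] at h
      obtain ⟨L, hL⟩ := enumO_found n2 B M a N hlo hhi hadj hl1 hl2 hcan r (i + 1) d2 e
        (by omega) h
      exact ⟨L, g1 _ _ (g2 _ _ hL)⟩

lemma enumM_succ (n2 B t : ℕ) (d : D) : enumM n2 B (t + 1) d
    = O.bnd (enumM n2 B t d) (fun d1 => if n2 ≤ 2 * (t + 1) then
        enumO n2 B (t + 1) (n2 - 1) (t + 1) (t + 1) d1 else O.some d1) := by
  have h1 : enumM n2 B (t + 1) d = O.rec (motive := fun _ => O) O.none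
      (fun d1 => Bool.rec (motive := fun _ => O) (O.some d1)
        (enumO n2 B (t + 1) (n2 - 1) (t + 1) (t + 1) d1)
        (Nat.ble n2 (2 * (t + 1)))) (enumM n2 B t d) := rfl
  rw [h1, orec_eq]
  congr 1
  funext d1
  rw [brec_ite (n2 ≤ 2 * (t + 1)) _ (ble_iff _ _)]

lemma enumM_mem (n2 B : ℕ) : ∀ (t : ℕ) (d e : D), enumM n2 B t d = O.some e →
    ∀ y L, Dmem y L e → Dmem y L d
  | 0, d, e, h, y, L, hy => by
    have h1 : enumM n2 B 0 d = Bool.rec (motive := fun _ => O) (O.some d)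
      (enumO n2 B 0 (n2 - 1) 0 0 d) (Nat.ble n2 0) := rfl
    rw [h1, brec_ite (n2 ≤ 0) _ (ble_iff _ _)] at h
    split_ifs at h with hc
    · exact enumO_mem n2 B 0 _ _ _ _ _ h y L hy
    · have : d = e := by injection h
      rw [this]; exact hy
  | t + 1, d, e, h, y, L, hy => by
    rw [enumM_succ] at h
    obtain ⟨d1, h1, h⟩ := bnd_some h
    refine enumM_mem n2 B t d d1 h1 y L ?_
    split_ifs at h with hc
    · exact enumO_mem n2 B _ _ _ _ _ _ h y L hy
    · have : d1 = e := by injection h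
      rw [this]; exact hy

lemma enumM_found (n2 B : ℕ) (hn : 1 ≤ n2) (a : ℕ → ℕ) (hlo : ∀ i, n2 - a 0 ≤ a i)
    (hhi : ∀ i, a i ≤ a 0) (hadj : ∀ i, a i ≤ a (i + 1) + 1 ∧ a (i + 1) ≤ a i + 1)
    (hl1 : n2 ≤ a (n2 - 1) + a 0 + 1) (hl2 : a (n2 - 1) + a 0 ≤ n2 + 1) (h2 : n2 ≤ 2 * a 0)
    (hcan : canonB n2 B (pc a n2) (2 * n2) (pc a n2) = true) :
    ∀ (t : ℕ) (d e : D), a 0 ≤ t → enumM n2 B t d = O.some e → ∃ L, Dmem (pc a n2) L d
  | 0, d, e, ht, h => by omega
  | t + 1, d, e, ht, h => by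
    rw [enumM_succ] at h
    obtain ⟨d1, h1, h⟩ := bnd_some h
    rcases Nat.lt_or_ge t (a 0) with hlt | hge
    · have ha0 : a 0 = t + 1 := by omega
      rw [if_pos (by omega)] at h
      have hp : pc a (0 + 1) = t + 1 := by simp [pc, ha0]
      have h' : enumO n2 B (a 0) (n2 - 1) (a 0) (pc a (0 + 1)) d1 = O.some e := by
        rw [hp, ha0]; exact h
      obtain ⟨L, hL⟩ := enumO_found n2 B (a 0) a n2 hlo hhi hadj hl1 hl2 hcan (n2 - 1) 0 d1 e
        (by omega) h'
      exact ⟨L, enumM_mem n2 B t d d1 h1 _ _ hL⟩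
    · exact enumM_found n2 B hn a hlo hhi hadj hl1 hl2 h2 hcan t d d1 hge h1

/-! ### Windows -/

lemma pc_left (n : ℕ) : ∀ a : ℕ → ℕ, pc a (n + 1) = a 0 * 16 ^ n + pc (fun i => a (i + 1)) n := by
  induction n with
  | zero => intro a; simp [pc]
  | succ n ih =>
    intro a
    have h1 : pc a (n + 1 + 1) = 16 * pc a (n + 1) + a (n + 1) := rfl
    have h2 : pc (fun i => a (i + 1)) (n + 1) = 16 * pc (fun i => a (i + 1)) n + a (n + 1) := rfl
    rw [h1, h2, ih a]
    ring

lemma pc_lt (n : ℕ) : ∀ a : ℕ → ℕ, (∀ i, a i < 16) → pc a n < 16 ^ n := by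
  induction n with
  | zero => intro a _; simp [pc]
  | succ n ih =>
    intro a ha
    have h1 : pc a (n + 1) = 16 * pc a n + a n := rfl
    have := ih a ha
    have := ha n
    rw [h1, pow_succ]
    omega

lemma nextW_eq (n2 N : ℕ) (hN : 1 ≤ N) (a : ℕ → ℕ) (ha : ∀ i, a i < 16)
    (hper : ∀ i, a (i + N) + a i = n2) (m : ℕ) :
    nextW n2 (16 ^ (N - 1)) (pc (fun i => a (m + i)) N) = pc (fun i => a (m + 1 + i)) N := by
  obtain ⟨n, rfl⟩ : ∃ n, N = n + 1 := ⟨N - 1, by omega⟩
  have h0 : n + 1 - 1 = n := rfl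
  rw [h0, pc_left]
  have hlt := pc_lt n (fun i => a (m + (i + 1))) (fun i => ha _)
  have hpos : 0 < 16 ^ n := by positivity
  have hnext : ∀ x, nextW n2 (16 ^ n) x = 16 * (x % 16 ^ n) + (n2 - x / 16 ^ n) := fun x => rfl
  rw [hnext]
  have e1 : (a (m + 0) * 16 ^ n + pc (fun i => a (m + (i + 1))) n) % 16 ^ n
      = pc (fun i => a (m + (i + 1))) n := by
    rw [Nat.mul_add_mod', Nat.mod_eq_of_lt hlt]
  have e2 : (a (m + 0) * 16 ^ n + pc (fun i => a (m + (i + 1))) n) / 16 ^ n = a m := by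
    rw [mul_comm, Nat.mul_add_div hpos, Nat.div_eq_of_lt hlt]
    simp
  rw [e1, e2]
  have h3 : pc (fun i => a (m + 1 + i)) (n + 1)
      = 16 * pc (fun i => a (m + 1 + i)) n + a (m + 1 + n) := rfl
  rw [h3]
  have h4 : (fun i => a (m + (i + 1))) = (fun i => a (m + 1 + i)) := by
    funext i; congr 1; omega
  rw [h4]
  have h5 := hper m
  have h6 : m + (n + 1) = m + 1 + n := by omega
  rw [h6] at h5
  omega

lemma canonB_of (n2 N : ℕ) (hN : 1 ≤ N) (a : ℕ → ℕ) (ha : ∀ i, a i < 16)
    (hper : ∀ i, a (i + N) + a i = n2) (x0 : ℕ)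
    (hmax : ∀ s, pc (fun i => a (s + i)) N ≤ x0) :
    ∀ t m, canonB n2 (16 ^ (N - 1)) x0 t (pc (fun i => a (m + i)) N) = true
  | 0, _ => rfl
  | t + 1, m => by
    have h1 : canonB n2 (16 ^ (N - 1)) x0 (t + 1) (pc (fun i => a (m + i)) N)
        = Bool.rec (motive := fun _ => Bool) false
          (canonB n2 (16 ^ (N - 1)) x0 t (nextW n2 (16 ^ (N - 1)) (pc (fun i => a (m + i)) N)))
          (Nat.ble (pc (fun i => a (m + i)) N) x0) := rfl
    rw [h1, (ble_iff _ _).mpr (hmax m), nextW_eq n2 N hN a ha hper m]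
    exact canonB_of n2 N hN a ha hper x0 hmax t (m + 1)

end Pool.Agent.W664.Fill
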