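import Mathlib
import Pool.Agent.W664.Fill.Enum

/-! # The finite inequality for all configurations -/

namespace Pool.Agent.W664.Fill

open Finset

lemma all_of_rec (f : ℕ → Bool) : ∀ (n : ℕ),
    Nat.rec (motive := fun _ => Bool) true
      (fun m ih => Bool.rec (motive := fun _ => Bool) false (f m) ih) n = true →
    ∀ m < n, f m = true
  | 0, _, _, hm => by omega
  | n + 1, h, m, hm => by
    have h1 : Bool.rec (motive := fun _ => Bool) false (f n)
      (Nat.rec (motive := fun _ => Bool) true
      (fun m ih => Bool.rec (motive := fun _ => Bool) false (f m) ih) n) = true := h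
    have h2 : Nat.rec (motive := fun _ => Bool) true
      (fun m ih => Bool.rec (motive := fun _ => Bool) false (f m) ih) n = true := by
      by_contra hne
      rw [Bool.not_eq_true] at hne
      rw [hne] at h1
      exact Bool.false_ne_true h1
    rw [h2] at h1
    rcases Nat.lt_or_ge m n with hlt | hge
    · exact all_of_rec f n h2 m hlt
    · have : m = n := by omega
      rw [this]; exact h1

lemma rec2_true (b c : Bool) (h : Bool.rec (motive := fun _ => Bool) false b c = true) :
    b = true ∧ c = true := by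
  cases c with
  | false => exact absurd h Bool.false_ne_true
  | true => exact ⟨h, rfl⟩

lemma symB_sound (P : Par) (N : ℕ) (h : symB P N = true) (m p q : ℕ) (hm : m < N) (hp : p ≤ N)
    (hq : q ≤ N) :
    dig P P.tp (pos P m p q) = dig P P.tp (pos P (N - m) q p) ∧
    dig P P.tn (pos P m p q) = dig P P.tn (pos P (N - m) q p) := by
  have h1 := all_of_rec (fun m =>
    Nat.rec (motive := fun _ => Bool) true (fun p ihp => Bool.rec (motive := fun _ => Bool) false
      (Nat.rec (motive := fun _ => Bool) true (fun q ihq => Bool.rec (motive := fun _ => Bool) false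
        (Bool.rec (motive := fun _ => Bool) false
          (Nat.beq (dig P P.tn (pos P m p q)) (dig P P.tn (pos P (Nat.sub N m) q p)))
          (Nat.beq (dig P P.tp (pos P m p q)) (dig P P.tp (pos P (Nat.sub N m) q p))))
        ihq) (Nat.succ N)) ihp) (Nat.succ N)) N h m hm
  have h2 := all_of_rec (fun p =>
      Nat.rec (motive := fun _ => Bool) true (fun q ihq => Bool.rec (motive := fun _ => Bool) false
        (Bool.rec (motive := fun _ => Bool) false
          (Nat.beq (dig P P.tn (pos P m p q)) (dig P P.tn (pos P (Nat.sub N m) q p)))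
          (Nat.beq (dig P P.tp (pos P m p q)) (dig P P.tp (pos P (Nat.sub N m) q p))))
        ihq) (Nat.succ N)) (N + 1) h1 p (by omega)
  have h3 := all_of_rec (fun q =>
        (Bool.rec (motive := fun _ => Bool) false
          (Nat.beq (dig P P.tn (pos P m p q)) (dig P P.tn (pos P (Nat.sub N m) q p)))
          (Nat.beq (dig P P.tp (pos P m p q)) (dig P P.tp (pos P (Nat.sub N m) q p)))))
        (N + 1) h2 q (by omega)
  obtain ⟨h4, h5⟩ := rec2_true _ _ h3
  exact ⟨(beq_iff _ _).mp h5, (beq_iff _ _).mp h4⟩

lemma cv_sym (P : Par) (N : ℕ) (hN : P.n2 = N) (h : symB P N = true) (m k l : ℕ) (hm : m < N)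
    (hk : k ≤ N) (hl : l ≤ N) : cv P (N - m) (N - k) l = cv P m l k := by
  have e1 : idx P m l k = pos P m ((l - k) + (k - l)) ((l + k - N) + (N - (l + k))) := by
    rw [← hN]; rfl
  have e2 : idx P (N - m) (N - k) l
      = pos P (N - m) ((N - k - l) + (l - (N - k))) ((N - k + l - N) + (N - (N - k + l))) := by
    conv_rhs => rw [← hN]
    rw [← hN]; rfl
  have e3 : (N - k - l) + (l - (N - k)) = (l + k - N) + (N - (l + k)) := by omega
  have e4 : (N - k + l - N) + (N - (N - k + l)) = (l - k) + (k - l) := by omega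
  rw [e3, e4] at e2
  obtain ⟨f1, f2⟩ := symB_sound P N h m ((l - k) + (k - l)) ((l + k - N) + (N - (l + k))) hm
    (by omega) (by omega)
  unfold cv
  rw [e1, e2, f1, f2]

/-- The sum over a window does not depend on the window. -/
lemma Fsum_shift (P : Par) (N : ℕ) (hN1 : 1 ≤ N) (hN : P.n2 = N) (hsym : symB P N = true)
    (a : ℕ → ℕ) (ha : ∀ i, a (i + N) + a i = N) (X Y : ℕ → ℝ) (hX : ∀ i, X (i + N) = -X i)
    (hY : ∀ i, Y (i + N) = -Y i) :
    ∀ m, Fsum P (fun i => a (m + i)) (fun i => X (m + i)) (fun i => Y (m + i)) N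
      = Fsum P a X Y N
  | 0 => by simp only [Nat.zero_add]
  | m + 1 => by
    rw [← Fsum_shift P N hN1 hN hsym a ha X Y hX hY m]
    obtain ⟨n, rfl⟩ : ∃ n, N = n + 1 := ⟨N - 1, by omega⟩
    set G : ℕ → ℕ → ℝ := fun u v => cv P (u - v) (a u) (a v) * (X u * Y v - Y u * X v) with hG
    have hW : ∀ m', Fsum P (fun i => a (m' + i)) (fun i => X (m' + i)) (fun i => Y (m' + i)) (n + 1)
        = ∑ i ∈ range (n + 1), ∑ j ∈ range i, G (m' + i) (m' + j) := by
      intro m'
      unfold Fsum
      apply Finset.sum_congr rfl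
      intro i _
      apply Finset.sum_congr rfl
      intro j _
      simp only [hG]
      have : m' + i - (m' + j) = i - j := by omega
      rw [this]
    rw [hW, hW]
    have h1 : ∑ i ∈ range (n + 1), ∑ j ∈ range i, G (m + i) (m + j)
        = ∑ i ∈ range n, (∑ j ∈ range i, G (m + 1 + i) (m + 1 + j) + G (m + 1 + i) m) := by
      rw [Finset.sum_range_succ', Finset.range_zero, Finset.sum_empty, add_zero]
      apply Finset.sum_congr rfl
      intro i _
      rw [Finset.sum_range_succ']
      have e1 : m + (i + 1) = m + 1 + i := by omega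
      rw [e1, Nat.add_zero]
      congr 1
      apply Finset.sum_congr rfl
      intro j _
      have e2 : m + (j + 1) = m + 1 + j := by omega
      rw [e2]
    rw [h1, Finset.sum_range_succ, Finset.sum_add_distrib]
    congr 1
    apply Finset.sum_congr rfl
    intro j hj
    have hj' := Finset.mem_range.mp hj
    simp only [hG]
    have e1 : m + 1 + n - (m + 1 + j) = n + 1 - (j + 1) := by omega
    have e2 : m + 1 + j - m = j + 1 := by omega
    have e3 : m + 1 + n = m + (n + 1) := by omega
    have e4 : a (m + (n + 1)) = n + 1 - a m := by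
      have := ha m
      omega
    have hb : ∀ i, a i ≤ n + 1 := fun i => by have := ha i; omega
    rw [e1, e2, e3, e4, hX, hY, cv_sym P (n + 1) hN hsym (j + 1) (a m) (a (m + 1 + j)) (by omega)
      (hb _) (hb _)]
    ring

/-- **The finite inequality.** -/
theorem finite_bound (P : Par) (N : ℕ) (hN1 : 1 ≤ N) (hN16 : N < 16) (hN : P.n2 = N) (s2 : ℕ)
    (d : D) (hchk : ∀ x L, Dmem x L d → leafB P s2 x L = true) (hcompl : complB N d = true)
    (hsym : symB P N = true) (a : ℕ → ℕ) (ha : ∀ i, a (i + N) + a i = N)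
    (hadj : ∀ i, a i ≤ a (i + 1) + 1 ∧ a (i + 1) ≤ a i + 1) (X Y : ℕ → ℝ)
    (hX : ∀ i, X (i + N) = -X i) (hY : ∀ i, Y (i + N) = -Y i) (B : ℝ)
    (hB : ∀ i, X i ^ 2 + Y i ^ 2 ≤ B) : 2 * Fsum P a X Y N ≤ B * s2 := by
  have ha16 : ∀ i, a i < 16 := fun i => by have := ha i; omega
  have hper2 : ∀ i, a (i + 2 * N) = a i := by
    intro i
    have h1 := ha i
    have h2 := ha (i + N)
    have e : i + N + N = i + 2 * N := by omega
    rw [e] at h2
    omega
  -- choose the window of largest code
  obtain ⟨m, hm, hmax⟩ := Finset.exists_max_image (range (2 * N))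
    (fun s => pc (fun i => a (s + i)) N) ⟨0, Finset.mem_range.mpr (by omega)⟩
  have hmod : ∀ s t, a (s + t) = a (s % (2 * N) + t) := by
    intro s t
    have key : ∀ q r, a (r + 2 * N * q + t) = a (r + t) := by
      intro q
      induction q with
      | zero => intro r; simp
      | succ q ih =>
        intro r
        have e : r + 2 * N * (q + 1) + t = (r + 2 * N * q + t) + 2 * N := by ring
        rw [e, hper2, ih]
    conv_lhs => rw [← Nat.mod_add_div s (2 * N)]
    exact key _ _
  have hmax' : ∀ s, pc (fun i => a (s + i)) N ≤ pc (fun i => a (m + i)) N := by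
    intro s
    have h1 : (fun i => a (s + i)) = (fun i => a (s % (2 * N) + i)) := by
      funext i; exact hmod s i
    rw [h1]
    exact hmax _ (Finset.mem_range.mpr (Nat.mod_lt _ (by omega)))
  set b : ℕ → ℕ := fun i => a (m + i) with hb
  have hbper : ∀ i, b (i + N) + b i = N := by
    intro i
    simp only [hb]
    rw [← add_assoc]
    exact ha _
  have hbadj : ∀ i, b i ≤ b (i + 1) + 1 ∧ b (i + 1) ≤ b i + 1 := by
    intro i
    simp only [hb]
    rw [← add_assoc]
    exact hadj _
  have hb16 : ∀ i, b i < 16 := fun i => ha16 _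
  have hbmax : ∀ s, pc (fun i => b (s + i)) N ≤ pc b N := by
    intro s
    have : (fun i => b (s + i)) = (fun i => a (m + s + i)) := by
      funext i; simp only [hb]; congr 1; omega
    rw [this]
    exact hmax' _
  have hhi : ∀ i, b i ≤ b 0 := by
    intro i
    by_contra hlt
    push Not at hlt
    obtain ⟨n, rfl⟩ : ∃ n, N = n + 1 := ⟨N - 1, by omega⟩
    have h1 := hbmax i
    rw [pc_left, pc_left] at h1
    simp only [Nat.add_zero] at h1
    have h2 := pc_lt n (fun i => b (i + 1)) (fun i => hb16 _)
    have h3 : (b 0 + 1) * 16 ^ n ≤ b i * 16 ^ n := Nat.mul_le_mul_right _ hlt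
    rw [add_mul, one_mul] at h3
    omega
  have hlo : ∀ i, N - b 0 ≤ b i := by
    intro i
    have h1 := hbper i
    have h2 := hhi (i + N)
    omega
  have h2 : N ≤ 2 * b 0 := by
    have h1 := hbper 0
    have h2 := hhi (0 + N)
    omega
  have hlast := hbadj (N - 1)
  have e1 : N - 1 + 1 = N := by omega
  rw [e1] at hlast
  have hN0 := hbper 0
  rw [Nat.zero_add] at hN0
  have hcan : canonB N (16 ^ (N - 1)) (pc b N) (2 * N) (pc b N) = true := by
    have := canonB_of N N hN1 b hb16 hbper (pc b N) hbmax (2 * N) 0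
    simpa using this
  -- the enumeration
  have hc : complB N d = O.rec (motive := fun _ => Bool) false (fun _ => true)
    (enumM N (16 ^ (N - 1)) N d) := rfl
  rw [hc] at hcompl
  obtain ⟨e, he⟩ : ∃ e, enumM N (16 ^ (N - 1)) N d = O.some e := by
    cases h : enumM N (16 ^ (N - 1)) N d with
    | none => rw [h] at hcompl; exact absurd hcompl Bool.false_ne_true
    | some e => exact ⟨e, rfl⟩
  obtain ⟨L, hL⟩ := enumM_found N (16 ^ (N - 1)) hN1 b hlo hhi hbadj (by omega) (by omega) h2
    hcan N d e (by omega) he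
  have hleaf := hchk _ _ hL
  have hres := leafB_sound P s2 b (fun i _ => hb16 i) L (by rw [hN]; exact hleaf)
    (fun i => X (m + i)) (fun i => Y (m + i)) B (fun i => hB _)
  rw [hN, hb, Fsum_shift P N hN1 hN hsym a ha X Y hX hY m] at hres
  exact hres

end Pool.Agent.W664.Fill
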