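import Mathlib
import Pool.Agent.H115R3.Filling.Main
import Pool.Agent.W664.Fill.Cal
import Pool.Agent.W664.Fill.Bdry
import Pool.Agent.W664.Fill.Window

/-! # The lattice calibration -/

open Finset Real MeasureTheory Filter Topology Set

namespace Pool.Agent.W664.Fill

open Pool.Agent.H115R3.Filling

lemma rho_add_pi (x : ℝ) : rho (x + π) = π - rho x := by
  have hper : Function.Periodic (fun x => rho (x + π) + rho x) (2 * π) := by
    intro x
    simp only
    rw [rho_periodic x]
    have : x + 2 * π + π = (x + π) + 2 * π := by ring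
    rw [this, rho_periodic]
  obtain ⟨y, hy, hxy⟩ := hper.exists_mem_Ico₀ (by positivity) x
  have hpi : 0 < π := pi_pos
  have key : rho (y + π) + rho y = π := by
    rcases le_or_gt y π with h | h
    · rw [← rho_reflect (y + π), rho_eq_self (x := 2 * π - (y + π)) (by linarith)
        (by linarith [hy.1]), rho_eq_self hy.1 h]
      ring
    · have e : y + π = (y - π) + 2 * π := by ring
      rw [e, rho_periodic, rho_eq_self (x := y - π) (by linarith) (by linarith [hy.2]),
        ← rho_reflect y, rho_eq_self (x := 2 * π - y) (by linarith [hy.2]) (by linarith)]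
      ring
  linarith

section

variable {M : Type} [MetricSpace M]

lemma ext_lip_theta (β : AddCircle (2 * π) → M) (θ θ' : AddCircle (2 * π)) (x : M) :
    |ext β θ x - ext β θ' x| ≤ dist θ θ' := by
  have key : ∀ θ θ' : AddCircle (2 * π), ext β θ x ≤ ext β θ' x + dist θ θ' := by
    intro θ θ'
    unfold Pool.Agent.H115R3.Filling.ext
    rw [← sub_le_iff_le_add]
    apply le_ciInf
    intro t
    have h1 := ciInf_le (ext_bdd β θ x) t
    have h2 := dist_triangle θ θ' t
    linarith
  rw [abs_le]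
  constructor
  · have := key θ' θ
    rw [dist_comm] at this
    linarith
  · have := key θ θ'
    linarith

/-- The antisymmetrised extended distance functions. -/
noncomputable def GG (β : AddCircle (2 * π) → M) (N i : ℕ) (x : M) : ℝ :=
  (ext β (((i : ℝ) * (π / N) : ℝ) : AddCircle (2 * π)) x
    - ext β (((i : ℝ) * (π / N) + π : ℝ) : AddCircle (2 * π)) x + π) / 2

lemma GG_lip (β : AddCircle (2 * π) → M) (N i : ℕ) (x y : M) :
    |GG β N i x - GG β N i y| ≤ dist x y := by
  have h1 := abs_le.mp (ext_lip β (((i : ℝ) * (π / N) : ℝ) : AddCircle (2 * π)) x y)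
  have h2 := abs_le.mp (ext_lip β (((i : ℝ) * (π / N) + π : ℝ) : AddCircle (2 * π)) x y)
  unfold GG
  rw [abs_le]
  constructor <;> linarith

lemma GG_adj (β : AddCircle (2 * π) → M) (N i : ℕ) (x : M) :
    |GG β N (i + 1) x - GG β N i x| ≤ π / N := by
  have e1 : dist ((((i + 1 : ℕ) : ℝ) * (π / N) : ℝ) : AddCircle (2 * π))
      (((i : ℝ) * (π / N) : ℝ) : AddCircle (2 * π)) ≤ π / N := by
    rw [dist_eq_rho]
    have := rho_sub_le (((i + 1 : ℕ) : ℝ) * (π / N) - (i : ℝ) * (π / N)) 0
    have h0 : rho 0 = 0 := by simp [rho]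
    rw [h0, sub_zero, sub_zero] at this
    refine (le_abs_self _).trans (this.trans (le_of_eq ?_))
    rw [show ((i + 1 : ℕ) : ℝ) * (π / N) - (i : ℝ) * (π / N) = π / N by push_cast; ring]
    exact abs_of_nonneg (by positivity)
  have e2 : dist ((((i + 1 : ℕ) : ℝ) * (π / N) + π : ℝ) : AddCircle (2 * π))
      (((i : ℝ) * (π / N) + π : ℝ) : AddCircle (2 * π)) ≤ π / N := by
    refine le_trans (le_of_eq ?_) e1
    rw [dist_eq_rho, dist_eq_rho]
    congr 1
    ring
  have h1 := abs_le.mp ((ext_lip_theta β _ _ x).trans e1)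
  have h2 := abs_le.mp ((ext_lip_theta β _ _ x).trans e2)
  unfold GG
  rw [abs_le]
  constructor <;> linarith

lemma GG_anti (β : AddCircle (2 * π) → M) {N : ℕ} (hN : 0 < N) (i : ℕ) (x : M) :
    GG β N (i + N) x = π - GG β N i x := by
  have hNr : (N : ℝ) ≠ 0 := by exact_mod_cast hN.ne'
  have e1 : ((i + N : ℕ) : ℝ) * (π / N) = (i : ℝ) * (π / N) + π := by
    push_cast; field_simp
  have e2 : ((((i + N : ℕ) : ℝ) * (π / N) + π : ℝ) : AddCircle (2 * π))
      = (((i : ℝ) * (π / N) : ℝ) : AddCircle (2 * π)) := by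
    rw [e1, show (i : ℝ) * (π / N) + π + π = (i : ℝ) * (π / N) + 2 * π by ring,
      AddCircle.coe_add_period]
  unfold GG
  rw [e2, e1]
  ring

lemma GG_range (β : AddCircle (2 * π) → M) (N i : ℕ) (x : M) :
    0 ≤ GG β N i x ∧ GG β N i x ≤ π := by
  have e1 : dist (((i : ℝ) * (π / N) : ℝ) : AddCircle (2 * π))
      (((i : ℝ) * (π / N) + π : ℝ) : AddCircle (2 * π)) ≤ π := by
    rw [dist_eq_rho]
    exact rho_le _
  have h1 := abs_le.mp ((ext_lip_theta β _ _ x).trans e1)
  unfold GG
  constructor <;> linarith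

lemma GG_bdry {β : AddCircle (2 * π) → M} (hβ : ∀ x y, dist x y ≤ dist (β x) (β y))
    (N i : ℕ) (t : ℝ) :
    GG β N i (β (t : AddCircle (2 * π))) = rho ((i : ℝ) * (π / N) - t) := by
  unfold GG
  rw [ext_boundary hβ, ext_boundary hβ, dist_eq_rho, dist_eq_rho,
    show (i : ℝ) * (π / N) + π - t = ((i : ℝ) * (π / N) - t) + π by ring, rho_add_pi]
  ring

/-! ### The pointwise inequality -/

/-- Dual norm bound. -/
lemma dual_bound {E F G : ℝ} (hE : 0 < E) (hD : 0 < E * G - F ^ 2) {a b : ℝ}
    (hab : ∀ v w, (a * v + b * w) ^ 2 ≤ E * v ^ 2 + 2 * F * v * w + G * w ^ 2) :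
    (√(E * G - F ^ 2) * a) ^ 2 + (F * a - E * b) ^ 2 ≤ E * √(E * G - F ^ 2) ^ 2 := by
  have hD2 : √(E * G - F ^ 2) ^ 2 = E * G - F ^ 2 := Real.sq_sqrt hD.le
  rw [mul_pow, hD2]
  have h1 := hab (G * a - F * b) (E * b - F * a)
  set q : ℝ := G * a ^ 2 - 2 * F * a * b + E * b ^ 2 with hqd
  have h2 : a * (G * a - F * b) + b * (E * b - F * a) = q := by rw [hqd]; ring
  have h3 : E * (G * a - F * b) ^ 2
      + 2 * F * (G * a - F * b) * (E * b - F * a) + G * (E * b - F * a) ^ 2
      = (E * G - F ^ 2) * q := by rw [hqd]; ring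
  rw [h2, h3] at h1
  have h4 : q ≤ E * G - F ^ 2 := by
    by_contra hlt
    push Not at hlt
    nlinarith
  have h5 : (E * G - F ^ 2) * a ^ 2 + (F * a - E * b) ^ 2 = E * q := by rw [hqd]; ring
  rw [h5]
  exact mul_le_mul_of_nonneg_left h4 hE.le

end

/-- The index set. -/
def PI (N : ℕ) : Finset (ℕ × ℕ × ℕ × ℕ) :=
  range N ×ˢ (range N ×ˢ (range (N + 1) ×ˢ range (N + 1)))

lemma sum_PI (N : ℕ) (f : ℕ → ℕ → ℕ → ℕ → ℝ) :
    ∑ p ∈ PI N, (if p.2.1 < p.1 then f p.1 p.2.1 p.2.2.1 p.2.2.2 else 0)
      = ∑ i ∈ range N, ∑ j ∈ range i, ∑ k ∈ range (N + 1), ∑ l ∈ range (N + 1), f i j k l := by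
  unfold PI
  rw [Finset.sum_product]
  apply Finset.sum_congr rfl
  intro i hi
  have hi' := Finset.mem_range.mp hi
  rw [Finset.sum_product]
  have hr : range i = (range N).filter (fun j => j < i) := by
    ext j
    simp only [Finset.mem_range, Finset.mem_filter]
    omega
  rw [hr, Finset.sum_filter]
  apply Finset.sum_congr rfl
  intro j _
  rw [Finset.sum_product]
  by_cases h : j < i
  · simp only [if_pos h]
  · simp only [if_neg h, Finset.sum_const_zero]

section

variable {M : Type} [MetricSpace M] (S : OrientedSurface M)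

/-- The lattice calibration bound. -/
theorem area_ge_lattice (hS : S.NoShortcut) (P : Par) (N n : ℕ) (hNn : N = 2 * n) (hn : 1 ≤ n)
    (hN16 : N < 16) (hPN : P.n2 = N) (s2 : ℕ) (hs2 : 0 < s2) (d : D)
    (hchk : ∀ x L, Dmem x L d → leafB P s2 x L = true) (hcompl : complB N d = true)
    (hsym : symB P N = true) :
    (π / (2 * N)) ^ 2 / s2 * ∑ i ∈ range N, ∑ j ∈ range i, ∑ k ∈ range (N + 1),
      ∑ l ∈ range (N + 1), cv P (i - j) k l *
        (∑ q ∈ range (4 * N), ((cl l (uu N j q) * cl k (uu N i (q + 1)) : ℕ) : ℝ)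
        - ∑ q ∈ range (4 * N), ((cl l (uu N j (q + 1)) * cl k (uu N i q) : ℕ) : ℝ))
      ≤ S.area := by
  have hN : 0 < N := by omega
  have hNr : (0 : ℝ) < N := by exact_mod_cast hN
  have hs2r : (0 : ℝ) < s2 := by exact_mod_cast hs2
  set h : ℝ := π / N with hh
  have hh0 : 0 < h := by positivity
  have hπh : π = 2 * n * h := by
    rw [hh, hNn]; push_cast
    have : (n : ℝ) ≠ 0 := by
      have : n ≠ 0 := by omega
      exact_mod_cast this
    field_simp
  set G : ℕ → M → ℝ := GG S.boundary N with hG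
  set UU : ℕ → ℕ → M → ℝ := fun i k x => clp h k (G i x) with hUU
  have hUUl : ∀ i k x y, |UU i k x - UU i k y| ≤ dist x y := fun i k x y =>
    (clp_lip h k _ _).trans (GG_lip _ _ _ _ _)
  refine area_ge_of_cal S (PI N)
    (fun p => if p.2.1 < p.1 then 2 * cv P (p.1 - p.2.1) p.2.2.1 p.2.2.2 / s2 else 0)
    (fun p => UU p.2.1 p.2.2.2) (fun p => UU p.1 p.2.2.1)
    (fun p => hUUl _ _) (fun p => hUUl _ _) ?_ _ ?_
  · intro c
    have hseg : ∀ (V : M → ℝ), (∀ x y, |V x - V y| ≤ dist x y) →
        SegLip (S.metric c) (fun p => V (S.chart c p)) := by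
      intro V hV p hp q hq
      refine (hV _ _).trans ?_
      rw [dist_comm]
      exact S.dist_le c p hp q hq
    have hd1 : ∀ᵐ x ∂(volume.restrict Sqo), ∀ i : ℕ,
        DifferentiableAt ℝ (fun p => G i (S.chart c p)) x := by
      rw [ae_all_iff]
      intro i
      exact (hseg _ (GG_lip _ _ _)).ae_diff
    have hd2 : ∀ᵐ x ∂(volume.restrict Sqo), ∀ i k : ℕ,
        DifferentiableAt ℝ (fun p => UU i k (S.chart c p)) x := by
      rw [ae_all_iff]
      intro i
      rw [ae_all_iff]
      intro k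
      exact (hseg _ (hUUl i k)).ae_diff
    filter_upwards [hd1, hd2, self_mem_ae_restrict isOpen_Sqo.measurableSet] with x hx1 hx2 hxo
    have hxS : x ∈ Sq := Sqo_sub hxo
    set E := (S.metric c).E x with hE
    set F := (S.metric c).F x with hF
    set Gm := (S.metric c).G x with hGm
    have hEpos : 0 < E := (S.metric c).pos_E x hxS
    have hDet : 0 < E * Gm - F ^ 2 := (S.metric c).pos_det x hxS
    set Dt := √(E * Gm - F ^ 2) with hDt
    have hDtpos : 0 < Dt := Real.sqrt_pos.mpr hDet
    set f : ℕ → ℝ × ℝ → ℝ := fun i p => G i (S.chart c p) with hf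
    set a : ℕ → ℕ := fun i => rnd n (f i x / h) with ha
    set A1 : ℕ → ℝ := fun i => fderiv ℝ (f i) x (1, 0) with hA1
    set A2 : ℕ → ℝ := fun i => fderiv ℝ (f i) x (0, 1) with hA2
    have hf0 : ∀ i, 0 ≤ f i x := fun i => (GG_range _ _ _ _).1
    have hf1 : ∀ i, f i x ≤ 2 * n * h := fun i => by
      rw [← hπh]; exact (GG_range _ _ _ _).2
    have hfN : ∀ i, f (i + N) = fun p => π - f i p := by
      intro i
      funext p
      exact GG_anti _ hN _ _
    -- periodicity of the rounding
    have haper : ∀ i, a (i + N) + a i = N := by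
      intro i
      simp only [ha]
      have e1 : f (i + N) x / h = 2 * n - f i x / h := by
        rw [hfN]
        simp only
        rw [sub_div, hπh]
        field_simp
      rw [e1, rnd_compl n (div_nonneg (hf0 i) hh0.le) (by
        rw [div_le_iff₀ hh0]; exact hf1 i), hNn]
    have haadj : ∀ i, a i ≤ a (i + 1) + 1 ∧ a (i + 1) ≤ a i + 1 := by
      intro i
      have e0 : |f (i + 1) x - f i x| ≤ h := GG_adj _ _ _ _
      have e1 : |f (i + 1) x / h - f i x / h| ≤ 1 := by
        rw [← sub_div, abs_div, abs_of_pos hh0, div_le_one hh0]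
        exact e0
      have e2 : |f i x / h - f (i + 1) x / h| ≤ 1 := by rw [abs_sub_comm]; exact e1
      exact ⟨rnd_adj n e2 (div_nonneg (hf0 _) hh0.le), rnd_adj n e1 (div_nonneg (hf0 _) hh0.le)⟩
    -- the covectors
    have hXper : ∀ i, Dt * A1 (i + N) = -(Dt * A1 i) := by
      intro i
      simp only [hA1]
      rw [hfN, fderiv_const_sub]
      simp
    have hYper : ∀ i, F * A1 (i + N) - E * A2 (i + N) = -(F * A1 i - E * A2 i) := by
      intro i
      simp only [hA1, hA2]
      rw [hfN, fderiv_const_sub]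
      simp only [_root_.neg_apply]
      ring
    have hnorm : ∀ i, (Dt * A1 i) ^ 2 + (F * A1 i - E * A2 i) ^ 2 ≤ E * Dt ^ 2 := by
      intro i
      apply dual_bound hEpos hDet
      intro v w
      have h2 := (hseg _ (GG_lip S.boundary N i)).deriv_le hxo (hx1 i) (v, w)
      have h3 : fderiv ℝ (fun p => G i (S.chart c p)) x (v, w)
          = A1 i * v + A2 i * w := by
        have : ((v, w) : ℝ × ℝ) = v • (1, 0) + w • (0, 1) := by simp
        rw [this, map_add, map_smul, map_smul, smul_eq_mul, smul_eq_mul]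
        simp only [hA1, hA2, hf]
        ring
      rw [← h3]
      exact h2
    have hfin := finite_bound P N (by omega) hN16 hPN s2 d hchk hcompl hsym a haper haadj
      (fun i => Dt * A1 i) (fun i => F * A1 i - E * A2 i) hXper hYper (E * Dt ^ 2) hnorm
    -- the Jacobians
    have hjac : ∀ i j k l, k ≤ N → l ≤ N →
        jac (fun p => UU j l (S.chart c p)) (fun p => UU i k (S.chart c p)) x
        = if k = a i then (if l = a j then A1 j * A2 i - A2 j * A1 i else 0) else 0 := by
      intro i j k l hk hl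
      have e1 := fderiv_clp hh0 n (f i) x (hf0 i) (hf1 i) (hx1 i)
        (fun k _ => hx2 i k) k (by omega)
      have e2 := fderiv_clp hh0 n (f j) x (hf0 j) (hf1 j) (hx1 j)
        (fun k _ => hx2 j k) l (by omega)
      have e1' : fderiv ℝ (fun p => UU i k (S.chart c p)) x
          = if k = a i then fderiv ℝ (f i) x else 0 := e1
      have e2' : fderiv ℝ (fun p => UU j l (S.chart c p)) x
          = if l = a j then fderiv ℝ (f j) x else 0 := e2
      unfold jac
      rw [e1', e2']
      split_ifs <;> simp [hA1, hA2]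
    have hsum : ∑ p ∈ PI N, (if p.2.1 < p.1 then 2 * cv P (p.1 - p.2.1) p.2.2.1 p.2.2.2 / s2
          else 0) * jac (fun y => UU p.2.1 p.2.2.2 (S.chart c y))
            (fun y => UU p.1 p.2.2.1 (S.chart c y)) x
        = ∑ i ∈ range N, ∑ j ∈ range i, 2 * cv P (i - j) (a i) (a j) / s2
            * (A1 j * A2 i - A2 j * A1 i) := by
      have g1 : ∀ p ∈ PI N, (if p.2.1 < p.1 then 2 * cv P (p.1 - p.2.1) p.2.2.1 p.2.2.2 / s2
          else 0) * jac (fun y => UU p.2.1 p.2.2.2 (S.chart c y))
            (fun y => UU p.1 p.2.2.1 (S.chart c y)) x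
          = (if p.2.1 < p.1 then 2 * cv P (p.1 - p.2.1) p.2.2.1 p.2.2.2 / s2 *
            (if p.2.2.1 = a p.1 then (if p.2.2.2 = a p.2.1 then
              A1 p.2.1 * A2 p.1 - A2 p.2.1 * A1 p.1 else 0) else 0) else 0) := by
        intro p hp
        unfold PI at hp
        simp only [Finset.mem_product, Finset.mem_range] at hp
        rw [hjac p.1 p.2.1 p.2.2.1 p.2.2.2 (by omega) (by omega)]
        split_ifs <;> simp
      rw [Finset.sum_congr rfl g1, sum_PI N (fun i j k l => 2 * cv P (i - j) k l / s2 *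
            (if k = a i then (if l = a j then A1 j * A2 i - A2 j * A1 i else 0) else 0))]
      apply Finset.sum_congr rfl
      intro i _
      apply Finset.sum_congr rfl
      intro j _
      have hai : a i ∈ range (N + 1) := by
        have := haper i
        exact Finset.mem_range.mpr (by omega)
      have haj : a j ∈ range (N + 1) := by
        have := haper j
        exact Finset.mem_range.mpr (by omega)
      rw [Finset.sum_eq_single_of_mem (a i) hai, Finset.sum_eq_single_of_mem (a j) haj]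
      · simp
      · intro l _ hl
        simp [hl]
      · intro k _ hk
        simp [hk]
    rw [hsum]
    have hmul : 2 * Fsum P a (fun i => Dt * A1 i) (fun i => F * A1 i - E * A2 i) N
        = (Dt * E * s2) * ∑ i ∈ range N, ∑ j ∈ range i, 2 * cv P (i - j) (a i) (a j) / s2
            * (A1 j * A2 i - A2 j * A1 i) := by
      unfold Fsum
      rw [Finset.mul_sum, Finset.mul_sum]
      apply Finset.sum_congr rfl
      intro i _
      rw [Finset.mul_sum, Finset.mul_sum]
      apply Finset.sum_congr rfl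
      intro j _
      field_simp
      ring
    rw [hmul] at hfin
    have hpos : 0 < Dt * E * s2 := by positivity
    have e4 : E * Dt ^ 2 * s2 = (Dt * E * s2) * Dt := by ring
    rw [e4] at hfin
    exact le_of_mul_le_mul_left hfin hpos
  · -- the boundary
    have hb : ∀ i k (t : ℝ), UU i k (S.boundary (t : AddCircle (2 * π)))
        = clp (π / N) k (rho ((i : ℝ) * (π / N) - t)) := by
      intro i k t
      simp only [hUU, hG]
      rw [GG_bdry hS]
    have hlim : ∀ p ∈ PI N, Tendsto (fun m : ℕ =>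
        (if p.2.1 < p.1 then 2 * cv P (p.1 - p.2.1) p.2.2.1 p.2.2.2 / s2 else 0) *
        (loopSum S.brk (fun t => UU p.2.1 p.2.2.2 (S.boundary (t : AddCircle (2 * π))))
          (fun t => UU p.1 p.2.2.1 (S.boundary (t : AddCircle (2 * π)))) m / 2)) atTop
        (𝓝 ((if p.2.1 < p.1 then 2 * cv P (p.1 - p.2.1) p.2.2.1 p.2.2.2 / s2 else 0) *
          (pp (fun t => clp (π / N) p.2.2.2 (rho ((p.2.1 : ℝ) * (π / N) - t)))
            (fun t => clp (π / N) p.2.2.1 (rho ((p.1 : ℝ) * (π / N) - t)))
            (π / (2 * N)) (4 * N) / 2))) := by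
      intro p _
      apply Tendsto.const_mul
      apply Tendsto.div_const
      simp only [hb]
      apply tendsto_loopSum S.brk S.brk_strictMono S.brk_zero (by positivity) (4 * N) (by
        rw [S.brk_last]; push_cast; field_simp; ring) (pwAff_clp hN _ _) (pwAff_clp hN _ _)
        (zero_le_one) (clp_rho_lip N _ _) (clp_rho_lip N _ _)
    have hlim2 := tendsto_finsetSum (PI N) hlim
    convert hlim2 using 2
    have g1 : ∀ p ∈ PI N, (if p.2.1 < p.1 then 2 * cv P (p.1 - p.2.1) p.2.2.1 p.2.2.2 / s2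
          else 0) * (pp (fun t => clp (π / N) p.2.2.2 (rho ((p.2.1 : ℝ) * (π / N) - t)))
            (fun t => clp (π / N) p.2.2.1 (rho ((p.1 : ℝ) * (π / N) - t)))
            (π / (2 * N)) (4 * N) / 2)
        = (if p.2.1 < p.1 then (π / (2 * N)) ^ 2 / s2 * (cv P (p.1 - p.2.1) p.2.2.1 p.2.2.2 *
          (∑ q ∈ range (4 * N), ((cl p.2.2.2 (uu N p.2.1 q) *
              cl p.2.2.1 (uu N p.1 (q + 1)) : ℕ) : ℝ)
          - ∑ q ∈ range (4 * N), ((cl p.2.2.2 (uu N p.2.1 (q + 1)) *
              cl p.2.2.1 (uu N p.1 q) : ℕ) : ℝ))) else 0) := by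
      intro p _
      rw [pp_clp hN]
      split_ifs
      · ring
      · ring
    rw [Finset.sum_congr rfl g1, sum_PI N (fun i j k l => (π / (2 * N)) ^ 2 / s2 *
      (cv P (i - j) k l *
        (∑ q ∈ range (4 * N), ((cl l (uu N j q) * cl k (uu N i (q + 1)) : ℕ) : ℝ)
        - ∑ q ∈ range (4 * N), ((cl l (uu N j (q + 1)) * cl k (uu N i q) : ℕ) : ℝ))))]
    rw [Finset.mul_sum]
    apply Finset.sum_congr rfl
    intro i _
    rw [Finset.mul_sum]
    apply Finset.sum_congr rfl
    intro j _
    rw [Finset.mul_sum]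
    apply Finset.sum_congr rfl
    intro k _
    rw [Finset.mul_sum]

end

end Pool.Agent.W664.Fill
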