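import Pool.Agent.W664.Fill.Kern

/-! # Kernel-friendly evaluation of the flux of the calibration through the boundary -/

namespace Pool.Agent.W664.Fill

/-- Sum of `f i` for `i < n`. -/
noncomputable def sumR (n : Nat) (f : Nat → Nat) : Nat :=
  Nat.rec (motive := fun _ => Nat) 0 (fun i ih => Nat.add ih (f i)) n

/-- Distance of `M` to the multiples of `4 N`. -/
noncomputable def uMk (N4 M : Nat) : Nat :=
  Nat.sub (Nat.mod M N4) (Nat.sub (Nat.mod M N4) (Nat.sub N4 (Nat.mod M N4)))

/-- Distance of the points `i h` and `q h / 2`. -/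
noncomputable def uuk (N4 i q : Nat) : Nat :=
  uMk N4 (Nat.add (Nat.mul 2 i) (Nat.mul (Nat.sub N4 1) q))

/-- Clamp. -/
noncomputable def clk (k a : Nat) : Nat :=
  Nat.add (Nat.sub (Nat.mul 2 k) 1)
    (Nat.sub (Nat.sub a (Nat.sub a (Nat.add (Nat.mul 2 k) 1))) (Nat.sub (Nat.mul 2 k) 1))

/-- First polygonal sum. -/
noncomputable def w1k (N4 i j k l : Nat) : Nat :=
  sumR N4 (fun q => Nat.mul (clk l (uuk N4 j q)) (clk k (uuk N4 i (Nat.succ q))))

/-- Second polygonal sum. -/
noncomputable def w2k (N4 i j k l : Nat) : Nat :=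
  sumR N4 (fun q => Nat.mul (clk l (uuk N4 j (Nat.succ q))) (clk k (uuk N4 i q)))

/-- Product, without evaluating the second factor when the first vanishes. -/
noncomputable def cmul (x w : Nat) : Nat :=
  Nat.rec (motive := fun _ => Nat) 0 (fun _ _ => Nat.mul x w) x

/-- Positive part of the flux, contributions of index `i`. -/
noncomputable def VPi (P : Par) (N i : Nat) : Nat :=
  sumR i (fun j => sumR (Nat.succ N) (fun k => sumR (Nat.succ N) (fun l =>
    Nat.add (cmul (dig P P.tp (idx P (Nat.sub i j) k l)) (w1k (Nat.mul 4 N) i j k l))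
      (cmul (dig P P.tn (idx P (Nat.sub i j) k l)) (w2k (Nat.mul 4 N) i j k l)))))

/-- Negative part of the flux, contributions of index `i`. -/
noncomputable def VNi (P : Par) (N i : Nat) : Nat :=
  sumR i (fun j => sumR (Nat.succ N) (fun k => sumR (Nat.succ N) (fun l =>
    Nat.add (cmul (dig P P.tp (idx P (Nat.sub i j) k l)) (w2k (Nat.mul 4 N) i j k l))
      (cmul (dig P P.tn (idx P (Nat.sub i j) k l)) (w1k (Nat.mul 4 N) i j k l)))))

/-- The flux is at least `v`. -/
noncomputable def fluxB (P : Par) (N v : Nat) : Bool :=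
  Nat.ble (Nat.add v (sumR N (VNi P N))) (sumR N (VPi P N))

end Pool.Agent.W664.Fill
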