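import Mathlib
import Pool.Agent.W664.Fill.KernV
import Pool.Agent.W664.Fill.Geom

/-! # From the finite certificate to the area bound -/

open Finset Real

namespace Pool.Agent.W664.Fill

open Pool.Agent.H115R3.Filling

lemma sumR_eq (f : ℕ → ℕ) : ∀ n, sumR n f = ∑ i ∈ range n, f i
  | 0 => rfl
  | n + 1 => by
    have h : sumR (n + 1) f = sumR n f + f n := rfl
    rw [h, Finset.sum_range_succ, sumR_eq f n]

lemma uuk_eq (N i q : ℕ) : uuk (4 * N) i q = uu N i q := by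
  have h : uuk (4 * N) i q = (2 * i + (4 * N - 1) * q) % (4 * N)
      - ((2 * i + (4 * N - 1) * q) % (4 * N)
        - (4 * N - (2 * i + (4 * N - 1) * q) % (4 * N))) := rfl
  rw [h]
  unfold uu uM
  omega

lemma clk_eq (k a : ℕ) : clk k a = cl k a := by
  have h : clk k a = (2 * k - 1) + ((a - (a - (2 * k + 1))) - (2 * k - 1)) := rfl
  rw [h]
  unfold cl
  omega

lemma cmul_eq (x w : ℕ) : cmul x w = x * w := by
  cases x with
  | zero => simp [cmul]
  | succ x => rfl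

lemma w1k_eq (N i j k l : ℕ) : w1k (4 * N) i j k l
    = ∑ q ∈ range (4 * N), cl l (uu N j q) * cl k (uu N i (q + 1)) := by
  have h : w1k (4 * N) i j k l
      = sumR (4 * N) (fun q => clk l (uuk (4 * N) j q) * clk k (uuk (4 * N) i (q + 1))) := rfl
  rw [h, sumR_eq]
  apply Finset.sum_congr rfl
  intro q _
  rw [clk_eq, clk_eq, uuk_eq, uuk_eq]

lemma w2k_eq (N i j k l : ℕ) : w2k (4 * N) i j k l
    = ∑ q ∈ range (4 * N), cl l (uu N j (q + 1)) * cl k (uu N i q) := by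
  have h : w2k (4 * N) i j k l
      = sumR (4 * N) (fun q => clk l (uuk (4 * N) j (q + 1)) * clk k (uuk (4 * N) i q)) := rfl
  rw [h, sumR_eq]
  apply Finset.sum_congr rfl
  intro q _
  rw [clk_eq, clk_eq, uuk_eq, uuk_eq]

lemma VPi_eq (P : Par) (N i : ℕ) : VPi P N i = ∑ j ∈ range i, ∑ k ∈ range (N + 1),
    ∑ l ∈ range (N + 1), (dig P P.tp (idx P (i - j) k l) * w1k (4 * N) i j k l
      + dig P P.tn (idx P (i - j) k l) * w2k (4 * N) i j k l) := by
  have h : VPi P N i = sumR i (fun j => sumR (N + 1) (fun k => sumR (N + 1) (fun l =>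
    cmul (dig P P.tp (idx P (i - j) k l)) (w1k (4 * N) i j k l)
      + cmul (dig P P.tn (idx P (i - j) k l)) (w2k (4 * N) i j k l)))) := rfl
  rw [h, sumR_eq]
  simp only [sumR_eq, cmul_eq]

lemma VNi_eq (P : Par) (N i : ℕ) : VNi P N i = ∑ j ∈ range i, ∑ k ∈ range (N + 1),
    ∑ l ∈ range (N + 1), (dig P P.tp (idx P (i - j) k l) * w2k (4 * N) i j k l
      + dig P P.tn (idx P (i - j) k l) * w1k (4 * N) i j k l) := by
  have h : VNi P N i = sumR i (fun j => sumR (N + 1) (fun k => sumR (N + 1) (fun l =>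
    cmul (dig P P.tp (idx P (i - j) k l)) (w2k (4 * N) i j k l)
      + cmul (dig P P.tn (idx P (i - j) k l)) (w1k (4 * N) i j k l)))) := rfl
  rw [h, sumR_eq]
  simp only [sumR_eq, cmul_eq]

lemma flux_eq (P : Par) (N v : ℕ) (h : fluxB P N v = true) :
    (v : ℝ) ≤ ∑ i ∈ range N, ∑ j ∈ range i, ∑ k ∈ range (N + 1),
      ∑ l ∈ range (N + 1), cv P (i - j) k l *
        (∑ q ∈ range (4 * N), ((cl l (uu N j q) * cl k (uu N i (q + 1)) : ℕ) : ℝ)
        - ∑ q ∈ range (4 * N), ((cl l (uu N j (q + 1)) * cl k (uu N i q) : ℕ) : ℝ)) := by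
  have h1 : v + sumR N (VNi P N) ≤ sumR N (VPi P N) := (ble_iff _ _).mp h
  rw [sumR_eq, sumR_eq] at h1
  have h2 : (v : ℝ) + ∑ i ∈ range N, (VNi P N i : ℝ) ≤ ∑ i ∈ range N, (VPi P N i : ℝ) := by
    exact_mod_cast h1
  have h3 : (v : ℝ) ≤ ∑ i ∈ range N, ((VPi P N i : ℝ) - VNi P N i) := by
    rw [Finset.sum_sub_distrib]; linarith
  refine h3.trans (le_of_eq ?_)
  apply Finset.sum_congr rfl
  intro i _
  rw [VPi_eq, VNi_eq]
  push_cast
  rw [← Finset.sum_sub_distrib]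
  apply Finset.sum_congr rfl
  intro j _
  rw [← Finset.sum_sub_distrib]
  apply Finset.sum_congr rfl
  intro k _
  rw [← Finset.sum_sub_distrib]
  apply Finset.sum_congr rfl
  intro l _
  rw [w1k_eq, w2k_eq]
  unfold cv
  push_cast
  ring

/-- The area bound from a checked certificate. -/
theorem area_ge_cert {M : Type} [MetricSpace M] (S : OrientedSurface M) (hS : S.NoShortcut)
    (P : Par) (N n : ℕ) (hNn : N = 2 * n) (hn : 1 ≤ n)
    (hN16 : N < 16) (hPN : P.n2 = N) (s2 : ℕ) (hs2 : 0 < s2) (d : D)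
    (hchk : ∀ x L, Dmem x L d → leafB P s2 x L = true) (hcompl : complB N d = true)
    (hsym : symB P N = true) (v : ℕ) (hv : fluxB P N v = true) :
    (v : ℝ) / (4 * N ^ 2 * s2) * π ^ 2 ≤ S.area := by
  refine le_trans ?_ (area_ge_lattice S hS P N n hNn hn hN16 hPN s2 hs2 d hchk hcompl hsym)
  have hN : 0 < N := by omega
  have hNr : (0 : ℝ) < N := by exact_mod_cast hN
  have hs2r : (0 : ℝ) < s2 := by exact_mod_cast hs2
  have h1 := flux_eq P N v hv
  have h2 : (v : ℝ) / (4 * N ^ 2 * s2) * π ^ 2 = (π / (2 * N)) ^ 2 / s2 * v := by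
    field_simp
    ring
  rw [h2]
  exact mul_le_mul_of_nonneg_left h1 (by positivity)

end Pool.Agent.W664.Fill
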